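import Pool.Agent.Helper15.OF.M_DSC

/-!
# Module DSC with the separation hypothesis only for the 4-cycles along the paths

Adapted from the module of helper15.
-/

set_option autoImplicit false

namespace Pool.Agent.Helper64.OF

open Equiv Equiv.Perm Pool.Agent.Helper35.PM Pool.Agent.Helper15.OF

variable {V : Type} {G : SimpleGraph V}

/-- the dart `d` belongs to the 4-cycle `a b c e` -/
def Edge4 (a b c e : V) (d : G.Dart) : Prop :=
  d.edge = s(a, b) ∨ d.edge = s(b, c) ∨ d.edge = s(c, e) ∨ d.edge = s(e, a)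

theorem edge4_swap {a b c e : V} {d : G.Dart} (h : Edge4 a b c e d) : Edge4 c b a e d := by
  rcases h with h | h | h | h
  · exact Or.inr (Or.inl (h.trans Sym2.eq_swap))
  · exact Or.inl (h.trans Sym2.eq_swap)
  · exact Or.inr (Or.inr (Or.inr (h.trans Sym2.eq_swap)))
  · exact Or.inr (Or.inr (Or.inl (h.trans Sym2.eq_swap)))

/-- no 4-cycle `p t i, p t (i+1), p t (i+2), w` separates `f s` from `f t` -/
def LocSep {k : ℕ} (R : Rot G) (f : Fin k → G.Dart) (L : Fin k → ℕ) (p : Fin k → ℕ → V) : Prop :=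
  ∀ t i w (y : G.Dart → ZMod 2), i + 2 ≤ L t → w ∉ PV L p → G.Adj (p t i) w →
    G.Adj (p t (i + 2)) w → (∀ d, y (R.φ d) = y d) →
    (∀ d : G.Dart, Edge4 (p t i) (p t (i + 1)) (p t (i + 2)) w d → y d.symm = y d + 1) →
    (∀ d : G.Dart, ¬ Edge4 (p t i) (p t (i + 1)) (p t (i + 2)) w d → y d.symm = y d) →
    ∀ s, y (f s) = y (f t)

/-- the statement of DSC with `LocSep` in place of `NoSep` -/
def StDsc2 : Prop :=
  ∀ (V : Type) [Fintype V] (G : SimpleGraph V) (R : Rot G) (k : ℕ) (f g : Fin k → G.Dart)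
    (L : Fin k → ℕ) (p : Fin k → ℕ → V) (q : G.Dart → ZMod 2) (c : V → ZMod 2), TF G →
    Paths G L p → (∀ t, p t 0 = (f t).fst) → (∀ t, p t (L t) = (g t).fst) → LocSep R f L p →
    (∀ d, q (R.r d) = q d + (X L p d + J R f g d)) →
    (∀ d : G.Dart, q d.symm = q d + X L p d + 1) →
    (∀ d : G.Dart, d.fst ∉ PV L p → c d.fst = q d) →
    (∀ t i, i + 2 ≤ L t → ∀ (d e : G.Dart), d.fst = p t (i + 1) → d.snd = p t i →
      e.fst = p t (i + 1) → e.snd = p t (i + 2) → q e = q d + 1) →
    ∀ t i v0, i + 2 ≤ L t → v0 ∉ PV L p → c v0 = 1 → G.Adj (p t i) v0 →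
      G.Adj (p t (i + 2)) v0 →
      ∃ w Ω, Disc G (PV L p) c (p t i) (p t (i + 1)) (p t (i + 2)) w Ω

theorem side_edgesV {R : Rot G} {v : ZMod 4 → V} {y : G.Dart → ZMod 2} (hS : Side R 4 v y) :
    (∀ d : G.Dart, (∃ j, d.edge = s(v j, v (j + 1))) → y d.symm = y d + 1) ∧
      ∀ d : G.Dart, (¬ ∃ j, d.edge = s(v j, v (j + 1))) → y d.symm = y d := by
  constructor
  · rintro d ⟨j, hj⟩
    rcases (SimpleGraph.dart_edge_eq_mk'_iff (d := d)).1 hj with h | h
    · have h1 := hS.on0 d j h
      have h2 := hS.on1 d.symm j (by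
        rw [show d.symm.toProd = d.toProd.swap from rfl, h]
        rfl)
      rw [h1, h2]
      rfl
    · have h1 := hS.on1 d j h
      have h2 := hS.on0 d.symm j (by
        rw [show d.symm.toProd = d.toProd.swap from rfl, h]
        rfl)
      rw [h1, h2]
      decide
  · intro d hd
    refine (hS.off d ?_).1
    intro j
    refine ⟨fun h => hd ⟨j, ?_⟩, fun h => hd ⟨j, ?_⟩⟩
    · rw [SimpleGraph.dart_edge_eq_mk'_iff]
      exact Or.inl h
    · rw [SimpleGraph.dart_edge_eq_mk'_iff]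
      right
      rw [h]

theorem side_edges {R : Rot G} {a b c e : V} {y : G.Dart → ZMod 2}
    (hS : Side R 4 ![a, b, c, e] y) :
    (∀ d : G.Dart, Edge4 a b c e d → y d.symm = y d + 1) ∧
      ∀ d : G.Dart, ¬ Edge4 a b c e d → y d.symm = y d := by
  obtain ⟨h1, h2⟩ := side_edgesV hS
  constructor
  · rintro d (h | h | h | h)
    · exact h1 d ⟨0, h⟩
    · exact h1 d ⟨1, h⟩
    · exact h1 d ⟨2, h⟩
    · exact h1 d ⟨3, h⟩
  · intro d hd
    refine h2 d ?_
    rintro ⟨j, h⟩
    apply hd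
    have h4 : ∀ j : ZMod 4, j = 0 ∨ j = 1 ∨ j = 2 ∨ j = 3 := by decide
    rcases h4 j with h' | h' | h' | h' <;> subst h'
    · exact Or.inl h
    · exact Or.inr (Or.inl h)
    · exact Or.inr (Or.inr (Or.inl h))
    · exact Or.inr (Or.inr (Or.inr h))

theorem zeroP2 [Finite V] {R : Rot G} {k : ℕ} {f : Fin k → G.Dart} {L : Fin k → ℕ}
    {p : Fin k → ℕ → V} (hP : Paths G L p) (hf : ∀ t, p t 0 = (f t).fst)
    (t : Fin k) (i : ℕ) (hi : i + 2 ≤ L t) (v : ZMod 4 → V) (y : G.Dart → ZMod 2)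
    (hS : Side R 4 v y) (hns : ∀ s, y (f s) = y (f t))
    (hv : ∀ s j, j ≤ L s → p s j ∈ Set.range v → s = t ∧ (j = i ∨ j = i + 1 ∨ j = i + 2))
    (h0 : i = 0 → y (f t) = 0)
    (hl : 0 < i → ∀ z : G.Dart, z.fst = p t i → z.snd = p t (i - 1) → y z = 0)
    (hr : i + 2 < L t → ∀ z : G.Dart, z.fst = p t (i + 2) → z.snd = p t (i + 3) → y z = 0) :
    ∀ s j, j ≤ L s → ¬ (s = t ∧ (j = i ∨ j = i + 1 ∨ j = i + 2)) →
      ∀ d : G.Dart, d.fst = p s j → y d = 0 := by
  -- the vertices before `p t i`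
  have hbef : ∀ m, m < i → ∀ d : G.Dart, d.fst = p t (i - 1 - m) → y d = 0 := by
    intro m
    induction m with
    | zero =>
      intro hm
      have hadj : G.Adj (p t i) (p t (i - 1)) := by
        have := hP.adj t (i - 1) (by omega)
        rw [Nat.sub_add_cancel hm] at this
        exact this.symm
      have hb : p t (i - 1) ∉ Set.range v := fun h => by
        have := (hv t (i - 1) (by omega) h).2
        omega
      exact prop1 hS hadj hb (hl hm _ rfl rfl)
    | succ m ih =>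
      intro hm
      have hadj : G.Adj (p t (i - 1 - m)) (p t (i - 1 - (m + 1))) := by
        have := hP.adj t (i - 1 - (m + 1)) (by omega)
        rw [show i - 1 - (m + 1) + 1 = i - 1 - m by omega] at this
        exact this.symm
      have hb : p t (i - 1 - (m + 1)) ∉ Set.range v := fun h => by
        have := (hv t _ (by omega) h).2
        omega
      exact prop1 hS hadj hb (ih (by omega) _ rfl)
  have hft : y (f t) = 0 := by
    rcases Nat.eq_zero_or_pos i with h | h
    · exact h0 h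
    · apply hbef (i - 1) (by omega)
      rw [show i - 1 - (i - 1) = 0 by omega]
      exact (hf t).symm
  have haft : ∀ m, i + 3 + m ≤ L t → ∀ d : G.Dart, d.fst = p t (i + 3 + m) → y d = 0 := by
    intro m
    induction m with
    | zero =>
      intro hm
      have hadj : G.Adj (p t (i + 2)) (p t (i + 3)) := hP.adj t (i + 2) (by omega)
      have hb : p t (i + 3) ∉ Set.range v := fun h => by
        have := (hv t (i + 3) (by omega) h).2
        omega
      exact prop1 hS hadj hb (hr (by omega) _ rfl rfl)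
    | succ m ih =>
      intro hm
      have hadj : G.Adj (p t (i + 3 + m)) (p t (i + 3 + (m + 1))) := hP.adj t (i + 3 + m) (by omega)
      have hb : p t (i + 3 + (m + 1)) ∉ Set.range v := fun h => by
        have := (hv t _ (by omega) h).2
        omega
      exact prop1 hS hadj hb (ih (by omega) _ rfl)
  have hoth : ∀ s, s ≠ t → ∀ j, j ≤ L s → ∀ d : G.Dart, d.fst = p s j → y d = 0 := by
    intro s hst j
    induction j with
    | zero =>
      intro _ d hd
      have hb : p s 0 ∉ Set.range v := fun h => hst (hv s 0 (Nat.zero_le _) h).1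
      have h2 := D_REV.offv V G R 4 v y hS (p s 0) hb d (f s) hd (hf s).symm
      rw [h2, hns s, hft]
    | succ j ih =>
      intro hj
      have hb : p s (j + 1) ∉ Set.range v := fun h => hst (hv s _ hj h).1
      exact prop1 hS (hP.adj s j (by omega)) hb (ih (by omega) _ rfl)
  intro s j hj hn d hd
  by_cases hst : s = t
  · subst hst
    have hn' : ¬ (j = i ∨ j = i + 1 ∨ j = i + 2) := fun h => hn ⟨rfl, h⟩
    by_cases hji : j < i
    · apply hbef (i - 1 - j) (by omega)
      rw [show i - 1 - (i - 1 - j) = j by omega]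
      exact hd
    · apply haft (j - (i + 3)) (by omega)
      rw [show i + 3 + (j - (i + 3)) = j by omega]
      exact hd
  · exact hoth s hst j hj d hd

open Classical in
theorem hDSC2 (hTR : StTR) (hRul : StRul) : StDsc2 := by
  intro V _ G R k f g L p q c hTF hP hf hg hNS hq hsym hc hval t i v0 hi hv0 hcv0 a0 a2
  set P : Set V := PV L p with hPdef
  have hmem : ∀ s j, j ≤ L s → p s j ∈ P := fun s j hj => ⟨s, j, hj, rfl⟩
  have hinj : ∀ j j', j ≤ L t → j' ≤ L t → j ≠ j' → p t j ≠ p t j' :=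
    fun j j' h1 h2 h3 h4 => h3 (hP.inj t t j j' h1 h2 h4).2
  have hzz : ∀ x : ZMod 2, x + 1 + 1 = x := by decide
  have hz1 : ∀ x : ZMod 2, x + 1 = 1 → x = 0 := by decide
  have hz0 : ∀ x : ZMod 2, x ≠ 1 → x = 0 := by decide
  -- darts leaving the paths
  have hX0 : ∀ d : G.Dart, d.fst ∉ P ∨ d.snd ∉ P → X L p d = 0 := by
    intro d hd
    unfold X
    rw [if_neg]
    rintro ⟨s, j, hj, h | h⟩
    · rcases hd with hd | hd
      · exact hd (h.1 ▸ hmem s j hj.le)
      · exact hd (h.2 ▸ hmem s (j + 1) hj)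
    · rcases hd with hd | hd
      · exact hd (h.1 ▸ hmem s (j + 1) hj)
      · exact hd (h.2 ▸ hmem s j hj.le)
  have hstar : ∀ d : G.Dart, d.fst ∈ P → d.snd ∉ P → c d.snd = q d + 1 := by
    intro d _ h2
    have h3 := hc d.symm h2
    have h4 := hsym d
    rw [hX0 d (Or.inr h2), add_zero] at h4
    rw [← h4, ← h3]; rfl
  have hX1 : ∀ j (hj : j < L t), X L p ⟨(p t j, p t (j + 1)), hP.adj t j hj⟩ = 1 := by
    intro j hj
    unfold X
    rw [if_pos]
    exact ⟨t, j, hj, Or.inl ⟨rfl, rfl⟩⟩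
  have hes : ∀ j (hj : j < L t), q ⟨(p t (j + 1), p t j), (hP.adj t j hj).symm⟩ =
      q ⟨(p t j, p t (j + 1)), hP.adj t j hj⟩ := by
    intro j hj
    have h4 := hsym ⟨(p t j, p t (j + 1)), hP.adj t j hj⟩
    rw [hX1 j hj, hzz] at h4
    exact h4
  have hv1 : q ⟨(p t (i + 1), p t (i + 2)), hP.adj t (i + 1) (by omega)⟩ =
      q ⟨(p t i, p t (i + 1)), hP.adj t i (by omega)⟩ + 1 := by
    rw [← hes i (by omega)]
    exact hval t i hi _ _ rfl rfl rfl rfl
  -- rules
  obtain ⟨z0, hz0f, hz00, hz0s, hz0r⟩ := (hRul V G R k f g L p q hP hf hg hq t i (by omega)).1 (by omega)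
  obtain ⟨z1, hz1f, -, hz1s, hz1r⟩ :=
    (hRul V G R k f g L p q hP hf hg hq t (i + 1) (by omega)).1 (by omega)
  obtain ⟨z2, hz2f, -, hz2s, hz2r⟩ :=
    (hRul V G R k f g L p q hP hf hg hq t (i + 2) (by omega)).2 (by omega)
  have hz1s' : z1.snd = p t i := hz1s (by omega)
  have hz1r' : ∀ d : G.Dart, d.fst = p t (i + 1) →
      q (R.r d) = q d + (if d.snd = p t (i + 2) then 1 else 0) + (if d.snd = p t i then 1 else 0) := by
    intro d hd
    have h1 := hz1r d hd
    have h2 : d = z1 ↔ d.snd = p t i := by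
      constructor
      · rintro rfl; exact hz1s'
      · intro h
        apply SimpleGraph.Dart.ext
        exact Prod.ext (hd.trans hz1f.symm) (h.trans hz1s'.symm)
    by_cases h3 : d.snd = p t i
    · rw [h1, if_pos h3, if_pos (h2.mpr h3)]
    · rw [h1, if_neg h3, if_neg (fun h => h3 (h2.mp h))]
  have hz2r' : ∀ d : G.Dart, d.fst = p t (i + 2) →
      q (R.r d) = q d + (if d.snd = p t (i + 1) then 1 else 0) + (if d = z2 then 1 else 0) := hz2r
  have hz2s' : i + 2 < L t → z2.snd = p t (i + 3) := hz2s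
  have hne02 : p t i ≠ p t (i + 2) := hinj _ _ (by omega) (by omega) (by omega)
  -- the vertices of the paths on the 4-cycle
  have hcyc : ∀ (w : V), w ∉ P → ∀ s j, j ≤ L s →
      (p s j = p t i ∨ p s j = p t (i + 1) ∨ p s j = p t (i + 2) ∨ p s j = w) →
      s = t ∧ (j = i ∨ j = i + 1 ∨ j = i + 2) := by
    intro w hw s j hj h
    rcases h with h | h | h | h
    · have := hP.inj s t j i hj (by omega) h
      exact ⟨this.1, Or.inl this.2⟩
    · have := hP.inj s t j (i + 1) hj (by omega) h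
      exact ⟨this.1, Or.inr (Or.inl this.2)⟩
    · have := hP.inj s t j (i + 2) hj (by omega) h
      exact ⟨this.1, Or.inr (Or.inr this.2)⟩
    · exact absurd (h ▸ hmem s j hj) hw
  by_cases hcase : q ⟨(p t i, p t (i + 1)), hP.adj t i (by omega)⟩ = 1
  · obtain ⟨w, hwK, y, hC, hS, hy0, hyz0, hyz0', hyz2, hyz2', hq0, hq1, hq2⟩ :=
      hTR V G R q {v : V | v ∉ P ∧ c v = 1 ∧ G.Adj (p t i) v ∧ G.Adj (p t (i + 2)) v}
        (p t i) (p t (i + 1)) (p t (i + 2)) (hP.adj t i (by omega)) (hP.adj t (i + 1) (by omega))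
        z0 z2 hne02 hz0f hz2f hz0r
        (fun d hd => by rw [hz1r' d hd]; ring) hz2r' hcase (by rw [hes i (by omega)]; exact hcase)
        (by rw [hv1, hcase]; decide) (by rw [hes (i + 1) (by omega), hv1, hcase]; decide)
        (fun h => h.1 (hmem t (i + 1) (by omega))) (fun v hv => ⟨hv.2.2.1, hv.2.2.2⟩)
        (fun d hd hdK => hz1 _ ((hstar d (hd ▸ hmem t i (by omega)) hdK.1).symm.trans hdK.2.1))
        (fun d hd hdK => hz1 _ ((hstar d (hd ▸ hmem t (i + 2) (by omega)) hdK.1).symm.trans hdK.2.1))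
        ⟨v0, hv0, hcv0, a0, a2⟩
    refine ⟨w, _, mkDisc hTF P c q y (p t i) (p t (i + 1)) (p t (i + 2)) w (hmem t i (by omega))
      (hmem t _ (by omega)) (hmem t _ (by omega)) hstar hC hS hwK.1 hwK.2.1 hy0 hq0 hq1 hq2 ?_⟩
    have hzP := zeroP2 hP hf t i hi _ y hS (hNS t i w y hi hwK.1 hwK.2.2.1 hwK.2.2.2 hS.face
        (side_edges hS).1 (side_edges hS).2)
      (fun s j hj h => hcyc w hwK.1 s j hj ((mem_rng _ _ _ _ _).1 h))
      (fun h => by rw [← hz00 h]; exact hyz0)
      (fun h z hzf hzs => by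
        have e : z = z0 := by
          apply SimpleGraph.Dart.ext
          exact Prod.ext (hzf.trans hz0f.symm) (hzs.trans (hz0s h).symm)
        rw [e]
        apply hyz0'
        intro hK
        exact hK.1 (by rw [hz0s h]; exact hmem t (i - 1) (by omega)))
      (fun h z hzf hzs => by
        have e : z = z2 := by
          apply SimpleGraph.Dart.ext
          exact Prod.ext (hzf.trans hz2f.symm) (hzs.trans (hz2s' h).symm)
        rw [e]
        apply hyz2'
        rw [hz2s' h]
        exact hinj _ _ (by omega) (by omega) (by omega))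
    rintro v ⟨s, j, hj, rfl⟩ h1 h2 h3 d hd
    apply hzP s j hj ?_ d hd
    rintro ⟨rfl, h | h | h⟩
    · exact h1 (by rw [h])
    · exact h2 (by rw [h])
    · exact h3 (by rw [h])
  · have hcase' := hz0 _ hcase
    have hv1' : q ⟨(p t (i + 1), p t (i + 2)), hP.adj t (i + 1) (by omega)⟩ = 1 := by
      rw [hv1, hcase']; rfl
    obtain ⟨w, hwK, y, hC, hS, hy0, hyz0, hyz0', hyz2, hyz2', hq0, hq1, hq2⟩ :=
      hTR V G R q {v : V | v ∉ P ∧ c v = 1 ∧ G.Adj (p t (i + 2)) v ∧ G.Adj (p t i) v}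
        (p t (i + 2)) (p t (i + 1)) (p t i) (hP.adj t (i + 1) (by omega)).symm
        (hP.adj t i (by omega)).symm
        z2 z0 hne02.symm hz2f hz0f hz2r' hz1r' hz0r (by rw [hes (i + 1) (by omega)]; exact hv1') hv1'
        (by rw [hes i (by omega)]; exact hcase') hcase'
        (fun h => h.1 (hmem t (i + 1) (by omega))) (fun v hv => ⟨hv.2.2.1, hv.2.2.2⟩)
        (fun d hd hdK => hz1 _ ((hstar d (hd ▸ hmem t (i + 2) (by omega)) hdK.1).symm.trans hdK.2.1))
        (fun d hd hdK => hz1 _ ((hstar d (hd ▸ hmem t i (by omega)) hdK.1).symm.trans hdK.2.1))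
        ⟨v0, hv0, hcv0, a2, a0⟩
    refine ⟨w, _, disc_swap (mkDisc hTF P c q y (p t (i + 2)) (p t (i + 1)) (p t i) w
      (hmem t _ (by omega)) (hmem t _ (by omega)) (hmem t i (by omega)) hstar hC hS hwK.1 hwK.2.1 hy0
      hq0 hq1 hq2 ?_)⟩
    have hzP := zeroP2 hP hf t i hi _ y hS (hNS t i w y hi hwK.1 hwK.2.2.2 hwK.2.2.1 hS.face
        (fun d hd => (side_edges hS).1 d (edge4_swap hd))
        (fun d hd => (side_edges hS).2 d (fun h => hd (edge4_swap h))))
      (fun s j hj h => by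
        rcases (mem_rng _ _ _ _ _).1 h with h' | h' | h' | h'
        · exact hcyc w hwK.1 s j hj (Or.inr (Or.inr (Or.inl h')))
        · exact hcyc w hwK.1 s j hj (Or.inr (Or.inl h'))
        · exact hcyc w hwK.1 s j hj (Or.inl h')
        · exact hcyc w hwK.1 s j hj (Or.inr (Or.inr (Or.inr h'))))
      (fun h => by rw [← hz00 h]; exact hyz2)
      (fun h z hzf hzs => by
        have e : z = z0 := by
          apply SimpleGraph.Dart.ext
          exact Prod.ext (hzf.trans hz0f.symm) (hzs.trans (hz0s h).symm)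
        rw [e]
        apply hyz2'
        rw [hz0s h]
        exact hinj _ _ (by omega) (by omega) (by omega))
      (fun h z hzf hzs => by
        have e : z = z2 := by
          apply SimpleGraph.Dart.ext
          exact Prod.ext (hzf.trans hz2f.symm) (hzs.trans (hz2s' h).symm)
        rw [e]
        apply hyz0'
        intro hK
        exact hK.1 (by rw [hz2s' h]; exact hmem t (i + 3) (by omega)))
    rintro v ⟨s, j, hj, rfl⟩ h1 h2 h3 d hd
    apply hzP s j hj ?_ d hd
    rintro ⟨rfl, h | h | h⟩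
    · exact h3 (by rw [h])
    · exact h2 (by rw [h])
    · exact h1 (by rw [h])

end Pool.Agent.Helper64.OF
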