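import Pool.Agent.Helper64.OF.St
import Pool.Agent.Helper35.PM.M_EUL

/-!
# Euler's formula implies planarity
-/

set_option autoImplicit false
set_option linter.unusedSectionVars false

namespace Pool.Agent.Helper64.OF.EUP

open Equiv Equiv.Perm Pool.Agent.Helper35.PM Pool.Agent.Helper64.OF
open Pool.Agent.Helper35.PM.M_EUL (xd xd_symm del del_apply finrank_ker_del exists_dart)

section

variable {V : Type} [Fintype V] [DecidableEq V] {G : SimpleGraph V} [DecidableRel G.Adj]

/-- the faces -/
abbrev Fc (r : Perm G.Dart) : Type := Quotient (SameCycle.setoid (fp r))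

/-- the coboundary map -/
noncomputable def Del (r : Perm G.Dart) :
    (Fc r → ZMod 2) →ₗ[ZMod 2] (G.edgeSet → ZMod 2) where
  toFun y e := y (Quotient.mk _ (exists_dart e).choose) +
    y (Quotient.mk _ (exists_dart e).choose.symm)
  map_add' x y := by
    funext e
    simp only [Pi.add_apply]
    ring
  map_smul' c x := by
    funext e
    simp only [Pi.smul_apply, RingHom.id_apply, smul_eq_mul]
    ring

theorem xd_Del (r : Perm G.Dart) (y : Fc r → ZMod 2) (d : G.Dart) :
    xd (Del r y) d = y (Quotient.mk _ d) + y (Quotient.mk _ d.symm) := by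
  unfold xd
  show y (Quotient.mk _ (exists_dart ⟨d.edge, d.edge_mem⟩).choose) +
    y (Quotient.mk _ (exists_dart ⟨d.edge, d.edge_mem⟩).choose.symm) = _
  have h := (exists_dart (⟨d.edge, d.edge_mem⟩ : G.edgeSet)).choose_spec
  rcases (SimpleGraph.dart_edge_eq_iff _ _).1 h with h1 | h1
  · rw [h1]
  · rw [h1, SimpleGraph.Dart.symm_symm, add_comm]

theorem mk_r (r : Perm G.Dart) (d : G.Dart) :
    (Quotient.mk (SameCycle.setoid (fp r)) (r d)) = Quotient.mk _ d.symm := by
  apply Quotient.sound
  show (fp r).SameCycle (r d) d.symm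
  have h : fp r d.symm = r d := by
    show r d.symm.symm = r d
    rw [SimpleGraph.Dart.symm_symm]
  rw [← h]
  exact (sameCycle_apply_left).2 (SameCycle.refl _ _)

theorem const_r {r : Perm G.Dart} {y : G.Dart → ZMod 2} (h : ∀ d, y (r d) = y d)
    {d d' : G.Dart} (hd : r.SameCycle d d') : y d = y d' := by
  obtain ⟨k, hk⟩ := hd.exists_nat_pow_eq
  rw [← hk]
  clear hk
  induction k with
  | zero => simp
  | succ k ih => rw [pow_succ', Perm.mul_apply, h, ih]

theorem ker_Del (hG : G.Connected) (r : Perm G.Dart)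
    (htr : ∀ d d' : G.Dart, d.fst = d'.fst → r.SameCycle d d') (y : Fc r → ZMod 2)
    (hy : Del r y = 0) : ∀ q q', y q = y q' := by
  have h1 : ∀ d : G.Dart, y (Quotient.mk _ d.symm) = y (Quotient.mk _ d) := by
    intro d
    have h2 := xd_Del r y d
    rw [hy] at h2
    have h3 : y (Quotient.mk _ d) + y (Quotient.mk _ d.symm) = 0 := h2.symm
    generalize y (Quotient.mk _ d) = p at *
    generalize y (Quotient.mk _ d.symm) = q at *
    clear h2
    revert p q
    decide
  have h2 : ∀ d : G.Dart, y (Quotient.mk _ (r d)) = y (Quotient.mk _ d) := by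
    intro d
    rw [mk_r, h1]
  have h3 : ∀ d d' : G.Dart, d.fst = d'.fst → y (Quotient.mk _ d) = y (Quotient.mk _ d') :=
    fun d d' h => const_r (r := r) (y := fun d => y (Quotient.mk _ d)) h2 (htr d d' h)
  have h4 : ∀ (a b : V), G.Walk a b → ∀ d d' : G.Dart, d.fst = a → d'.fst = b →
      y (Quotient.mk _ d) = y (Quotient.mk _ d') := by
    intro a b p
    induction p with
    | nil =>
      intro d d' hd hd'
      exact h3 d d' (hd.trans hd'.symm)
    | @cons a c b h p ih =>
      intro d d' hd hd'
      rw [h3 d ⟨(a, c), h⟩ hd, ← h1]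
      exact ih _ d' rfl hd'
  intro q q'
  induction q using Quotient.ind
  induction q' using Quotient.ind
  rename_i d d'
  obtain ⟨p⟩ := hG.preconnected d.fst d'.fst
  exact h4 _ _ p d d' rfl rfl

theorem finrank_ker_Del (hG : G.Connected) (r : Perm G.Dart)
    (htr : ∀ d d' : G.Dart, d.fst = d'.fst → r.SameCycle d d') (hn : Nonempty (Fc r)) :
    Module.finrank (ZMod 2) (LinearMap.ker (Del r)) = 1 := by
  obtain ⟨q0⟩ := hn
  have h1 : (fun _ => 1 : Fc r → ZMod 2) ∈ LinearMap.ker (Del r) := by
    rw [LinearMap.mem_ker]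
    funext e
    show (1 : ZMod 2) + 1 = 0
    exact zadd_self _
  refine finrank_eq_one (⟨_, h1⟩ : LinearMap.ker (Del r)) ?_ ?_
  · intro h
    have h2 := congrArg (fun z : LinearMap.ker (Del r) => z.1 q0) h
    exact one_ne_zero h2
  · rintro ⟨y, hy⟩
    refine ⟨y q0, ?_⟩
    apply Subtype.ext
    funext q
    show y q0 • (1 : ZMod 2) = y q
    rw [smul_eq_mul, mul_one]
    exact ker_Del hG r htr y hy q0 q

theorem range_le (r : Perm G.Dart) (hr : ∀ d, (r d).fst = d.fst) :
    LinearMap.range (Del r) ≤ LinearMap.ker (del G) := by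
  rintro _ ⟨y, rfl⟩
  rw [LinearMap.mem_ker]
  funext v
  rw [del_apply, Finset.sum_congr rfl (fun d _ => xd_Del r y d), Finset.sum_add_distrib]
  have h1 : ∑ d ∈ Finset.univ.filter (fun d : G.Dart => d.fst = v), y (Quotient.mk _ d.symm) =
      ∑ d ∈ Finset.univ.filter (fun d : G.Dart => d.fst = v), y (Quotient.mk _ d) := by
    refine Finset.sum_equiv r ?_ ?_
    · intro d
      simp only [Finset.mem_filter, Finset.mem_univ, true_and, hr]
    · intro d _
      rw [mk_r]
  rw [h1]
  exact zadd_self _

end

end Pool.Agent.Helper64.OF.EUP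

namespace Pool.Agent.Helper64.OF

open Equiv Equiv.Perm Pool.Agent.Helper35.PM EUP
open Pool.Agent.Helper35.PM.M_EUL (xd xd_symm del del_apply finrank_ker_del exists_dart)

theorem hEUP : StEup := by
  intro V _ _ G _ r hr htr hG hE
  classical
  have : Fintype (Fc r) := Fintype.ofFinite _
  by_cases hn : Nonempty G.Dart
  · have hn' : Nonempty (Fc r) := hn.map (Quotient.mk _)
    have h1 := LinearMap.finrank_range_add_finrank_ker (Del r)
    rw [finrank_ker_Del hG r htr hn', Module.finrank_fintype_fun_eq_card] at h1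
    have h2 := finrank_ker_del hG
    have h3 : G.edgeFinset.card = Fintype.card G.edgeSet := by
      rw [SimpleGraph.edgeFinset, Set.toFinset_card]
    have h4 : Nat.card (Fc r) = Fintype.card (Fc r) := Nat.card_eq_fintype_card
    have h5 : (Fintype.card V : ℤ) - (Fintype.card G.edgeSet : ℤ) +
        (Fintype.card (Fc r) : ℤ) = 2 := by
      rw [← h3, ← h4]
      exact hE
    have heq : LinearMap.range (Del r) = LinearMap.ker (del G) := by
      apply Submodule.eq_of_le_of_finrank_eq (range_le r hr)
      omega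
    intro x u hx hu
    -- the edge function of `x`
    let x' : G.edgeSet → ZMod 2 := fun e => x (exists_dart e).choose
    have hx' : ∀ d, xd x' d = x d := by
      intro d
      show x (exists_dart ⟨d.edge, d.edge_mem⟩).choose = x d
      have h := (exists_dart (⟨d.edge, d.edge_mem⟩ : G.edgeSet)).choose_spec
      rcases (SimpleGraph.dart_edge_eq_iff _ _).1 h with h1 | h1
      · rw [h1]
      · rw [h1, hx]
    have hmem : x' ∈ LinearMap.ker (del G) := by
      rw [LinearMap.mem_ker]
      funext v
      rw [del_apply, Finset.sum_congr rfl (fun d _ => hx' d)]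
      have h6 : ∑ d ∈ Finset.univ.filter (fun d : G.Dart => d.fst = v), u (r d) =
          ∑ d ∈ Finset.univ.filter (fun d : G.Dart => d.fst = v), u d := by
        refine Finset.sum_equiv r ?_ ?_
        · intro d
          simp only [Finset.mem_filter, Finset.mem_univ, true_and, hr]
        · intro d _
          rfl
      rw [Finset.sum_congr rfl (fun d _ => hu d), Finset.sum_add_distrib] at h6
      simpa using h6
    rw [← heq] at hmem
    obtain ⟨y0, hy0⟩ := hmem
    have h7 : ∀ d : G.Dart, y0 (Quotient.mk _ d.symm) = y0 (Quotient.mk _ d) + x d := by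
      intro d
      have h8 := xd_Del r y0 d
      rw [hy0, hx'] at h8
      rw [h8, ← add_assoc, zadd_self, zero_add]
    refine ⟨fun d => y0 (Quotient.mk _ d), ?_, h7⟩
    intro d
    show y0 (Quotient.mk _ (r d)) = _
    rw [mk_r, h7]
  · intro x u _ _
    exact ⟨fun _ => 0, fun d => absurd ⟨d⟩ hn, fun d => absurd ⟨d⟩ hn⟩

end Pool.Agent.Helper64.OF
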