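import Pool.Agent.Helper64.OF.Main
import Pool.Agent.Helper64.OF.M_EUP
import Pool.Agent.Helper35.PM.D_FIN
import Pool.Agent.Helper35.PM.D_LEAF

/-!
# The final theorem from `StMain`, with the definitions of the hand-in
-/

set_option autoImplicit false

namespace Pool.Agent.Helper64.OF

open Equiv Equiv.Perm Pool.Agent.Helper35.PM

variable {V : Type}

/-- A rotation system of the simple graph `G`: a permutation `r` of the darts (oriented edges) which
permutes the darts starting at every vertex cyclically. -/
structure Rotation (G : SimpleGraph V) where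
  /-- the next dart around the same vertex -/
  r : Perm G.Dart
  fst_r : ∀ d, (r d).fst = d.fst
  trans : ∀ d e : G.Dart, d.fst = e.fst → r.SameCycle d e

namespace Rotation

variable {G : SimpleGraph V} (ρ : Rotation G)

/-- The face permutation: from the dart `(a, b)` go to the dart following `(b, a)` around `b`. The
faces are its cycles; the dart `d` belongs to the face on its left. -/
def face : Perm G.Dart := ρ.r * SimpleGraph.Dart.symm_involutive.toPerm

/-- the darts `d` and `e` belong to the same face -/
def SameFace (d e : G.Dart) : Prop := ρ.face.SameCycle d e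

/-- the length (number of darts) of the face of the dart `d` -/
noncomputable def faceLength (d : G.Dart) : ℕ := Function.minimalPeriod ρ.face d

/-- The rotation system describes an embedding in the sphere (Euler's formula for connected graphs):
number of vertices - number of edges + number of faces = 2. -/
def IsPlane [Fintype V] [DecidableEq V] [DecidableRel G.Adj] : Prop :=
  (Fintype.card V : ℤ) - (G.edgeFinset.card : ℤ) +
    (Nat.card (Quotient (SameCycle.setoid ρ.face)) : ℤ) = 2

/-- The cycle `v 0, v 1, v 2, v 3` of length four separates the faces of the darts `d` and `e`: there is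
a 2-colouring `y` of the faces for which the two faces at an edge have different colours exactly if the
edge belongs to the cycle, and `y` has different values at `d` and `e`. -/
def Separates (v : ZMod 4 → V) (d e : G.Dart) : Prop :=
  ∃ y : G.Dart → ZMod 2, (∀ a, y (ρ.face a) = y a) ∧
    (∀ a : G.Dart, (∃ j, a.edge = s(v j, v (j + 1))) → y a.symm = y a + 1) ∧
    (∀ a : G.Dart, (¬ ∃ j, a.edge = s(v j, v (j + 1))) → y a.symm = y a) ∧ y d ≠ y e

end Rotation

/-- `v` lies on a shortest path from `a` to `b` (for connected graphs) -/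
def OnGeodesic (G : SimpleGraph V) (a b v : V) : Prop := G.dist a v + G.dist v b = G.dist a b

theorem final (hMain : StMain) [Fintype V] [DecidableEq V] (G : SimpleGraph V)
    [DecidableRel G.Adj] (hconn : G.Connected) (htf : G.CliqueFree 3) (ρ : Rotation G)
    (hplane : ρ.IsPlane) (k : ℕ) (f g : Fin k → G.Dart)
    (hodd : ∀ d, Odd (ρ.faceLength d) ↔ ∃ t, ρ.SameFace (f t) d ∨ ρ.SameFace (g t) d)
    (hfg : ∀ s t, ¬ ρ.SameFace (f s) (g t)) (hff : ∀ s t, ρ.SameFace (f s) (f t) → s = t)
    (hgg : ∀ s t, ρ.SameFace (g s) (g t) → s = t)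
    (hfar : ∀ s t, s ≠ t → ∀ u v, OnGeodesic G (f s).fst (g s).fst u →
      OnGeodesic G (f t).fst (g t).fst v → 3 ≤ G.dist u v)
    (hsep : ∀ v : ZMod 4 → V, Function.Injective v → (∀ j, G.Adj (v j) (v (j + 1))) →
      ∀ s t, ¬ ρ.Separates v (f s) (f t)) :
    (∃ I : Set V, (∀ a ∈ I, ∀ b ∈ I, ¬ G.Adj a b) ∧ (G.induce Iᶜ).IsAcyclic) ∧
    ∀ (L : V → Finset ℕ) (A : Finset ℕ), (∀ v, (L v ∩ A).card = 1 ∧ (L v \ A).card = 2) →
      ∃ c : V → ℕ, (∀ v, c v ∈ L v) ∧ ∀ u v, G.Adj u v → c u ≠ c v := by
  classical
  let R : Rot G :=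
    { r := ρ.r
      fst_r := ρ.fst_r
      trans := ρ.trans
      pl := hEUP V G ρ.r ρ.fst_r ρ.trans hconn (by
        have h := hplane
        unfold Rotation.IsPlane at h
        exact h) }
  have hTF : TF G := by
    intro a b c hab hbc hac
    apply htf {a, b, c}
    rw [SimpleGraph.is3Clique_triple_iff]
    exact ⟨hab, hac, hbc⟩
  have hNB : NB G := by
    refine hMain V G R k f g hconn hTF hodd hfg hff hgg hfar ?_
    intro v y hcyc hy hoff hon s t
    by_contra hne
    refine hsep v hcyc.inj hcyc.adj s t ⟨y, hy, ?_, ?_, hne⟩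
    · rintro a ⟨j, hj⟩
      rcases (SimpleGraph.dart_edge_eq_mk'_iff (d := a)).1 hj with h | h
      · exact hon a j h
      · have h1 := hon a.symm j (by
          rw [show a.symm.toProd = a.toProd.swap from rfl, h]
          rfl)
        rw [SimpleGraph.Dart.symm_symm] at h1
        rw [h1]
        generalize y a.symm = z
        revert z
        decide
    · intro a ha
      refine hoff a fun j => ⟨fun h => ha ⟨j, ?_⟩, fun h => ha ⟨j, ?_⟩⟩
      · rw [SimpleGraph.dart_edge_eq_mk'_iff]
        exact Or.inl h
      · rw [SimpleGraph.dart_edge_eq_mk'_iff]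
        right
        rw [h]
  obtain ⟨I, hI1, hI2⟩ := hNB
  exact ⟨⟨I, hI1, (D_LEAF.main V G Iᶜ).1 hI2⟩, fun L A hL => D_FIN.main V G ⟨I, hI1, hI2⟩ L A hL⟩

end Pool.Agent.Helper64.OF
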