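import Pool.Agent.Helper64.OF.St

set_option autoImplicit false

namespace Pool.Agent.Helper64.OF.PP

open Equiv Equiv.Perm Pool.Agent.Helper35.PM Pool.Agent.Helper64.OF

variable {D : Type} [Fintype D]

theorem fullMul (π : Perm D) (x : D → ZMod 2)
    (hx : ∀ d, ∑ j ∈ Finset.range (Function.minimalPeriod π d), x ((π ^ j) d) = 0) (c : D)
    (q : ℕ) :
    ∑ j ∈ Finset.range (Function.minimalPeriod π c * q), x ((π ^ j) c) = 0 := by
  induction q with
  | zero => simp
  | succ q ih =>
    rw [Nat.mul_succ, Finset.sum_range_add, ih, zero_add, ← hx c]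
    refine Finset.sum_congr rfl fun j _ => ?_
    congr 1
    rw [add_comm, pow_add, Perm.mul_apply]
    congr 1
    rw [← Equiv.Perm.iterate_eq_pow]
    exact (Function.isPeriodicPt_minimalPeriod π c).mul_const q

theorem well (π : Perm D) (x : D → ZMod 2)
    (hx : ∀ d, ∑ j ∈ Finset.range (Function.minimalPeriod π d), x ((π ^ j) d) = 0) (b : D)
    {k l : ℕ} (hkl : k ≤ l) (h : (π ^ k) b = (π ^ l) b) :
    ∑ j ∈ Finset.range k, x ((π ^ j) b) = ∑ j ∈ Finset.range l, x ((π ^ j) b) := by
  obtain ⟨m, rfl⟩ := Nat.exists_eq_add_of_le hkl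
  rw [Finset.sum_range_add]
  have hper : Function.IsPeriodicPt π m ((π ^ k) b) := by
    show (π)^[m] ((π ^ k) b) = (π ^ k) b
    rw [Equiv.Perm.iterate_eq_pow, ← Perm.mul_apply, ← pow_add, add_comm m k, ← h]
  obtain ⟨q, hq⟩ := hper.minimalPeriod_dvd
  have h2 := fullMul π x hx ((π ^ k) b) q
  rw [← hq] at h2
  have h3 : ∑ j ∈ Finset.range m, x ((π ^ (k + j)) b) = 0 := by
    rw [← h2]
    refine Finset.sum_congr rfl fun j _ => ?_
    rw [← Perm.mul_apply, ← pow_add, add_comm j k]
  rw [h3, add_zero]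

theorem well' (π : Perm D) (x : D → ZMod 2)
    (hx : ∀ d, ∑ j ∈ Finset.range (Function.minimalPeriod π d), x ((π ^ j) d) = 0) (b : D)
    {k l : ℕ} (h : (π ^ k) b = (π ^ l) b) :
    ∑ j ∈ Finset.range k, x ((π ^ j) b) = ∑ j ∈ Finset.range l, x ((π ^ j) b) := by
  rcases le_total k l with hkl | hkl
  · exact well π x hx b hkl h
  · exact (well π x hx b hkl h.symm).symm

end Pool.Agent.Helper64.OF.PP

namespace Pool.Agent.Helper64.OF

open Equiv Equiv.Perm Pool.Agent.Helper35.PM

theorem hPP : StPP := by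
  intro D _ π x hx
  classical
  have hex : ∀ d, ∃ e, π.SameCycle d e := fun d => ⟨d, SameCycle.refl _ _⟩
  let B : D → D := fun d => Classical.choose (hex d)
  have hB1 : ∀ d, π.SameCycle d (B d) := fun d => Classical.choose_spec (hex d)
  have hB2 : ∀ d, B (π d) = B d := by
    intro d
    have h : (fun e => π.SameCycle (π d) e) = (fun e => π.SameCycle d e) := by
      funext e
      rw [sameCycle_apply_left]
    show Classical.choose (hex (π d)) = Classical.choose (hex d)
    congr 1
  have hk : ∀ d, ∃ k : ℕ, (π ^ k) (B d) = d := fun d => (hB1 d).symm.exists_nat_pow_eq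
  choose k hk using hk
  refine ⟨fun d => ∑ j ∈ Finset.range (k d), x ((π ^ j) (B d)), ?_⟩
  intro d
  show ∑ j ∈ Finset.range (k (π d)), x ((π ^ j) (B (π d))) =
    ∑ j ∈ Finset.range (k d), x ((π ^ j) (B d)) + x d
  rw [hB2]
  have h1 : (π ^ (k (π d))) (B d) = (π ^ (k d + 1)) (B d) := by
    rw [pow_succ', Perm.mul_apply, hk d]
    have := hk (π d)
    rw [hB2] at this
    exact this
  rw [PP.well' π x hx (B d) h1, Finset.sum_range_succ, hk d]

end Pool.Agent.Helper64.OF
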