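import Pool.Agent.Helper64.OF.St

set_option autoImplicit false

namespace Pool.Agent.Helper64.OF

open Equiv Equiv.Perm Pool.Agent.Helper35.PM

theorem hRul : StRul := by
  intro V _ G R k f g L p q hP h0 hL hq t i hi
  classical
  -- the values of `J`
  have hJ : ∀ d : G.Dart, d.fst = p t i → J R f g d =
      (if i = 0 ∧ R.r d = f t then 1 else 0) + (if i = L t ∧ R.r d = g t then 1 else 0) := by
    intro d hd
    unfold J
    have hf : ∀ s, (if R.r d = f s then (1 : ZMod 2) else 0) =
        if s = t then (if i = 0 ∧ R.r d = f t then 1 else 0) else 0 := by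
      intro s
      by_cases h1 : R.r d = f s
      · have h2 : p s 0 = p t i := by rw [h0, ← h1, R.fst_r, hd]
        obtain ⟨h3, h4⟩ := hP.inj s t 0 i (Nat.zero_le _) hi h2
        subst h3
        rw [if_pos h1, if_pos rfl, if_pos ⟨h4.symm, h1⟩]
      · rw [if_neg h1]
        by_cases h2 : s = t
        · subst h2
          rw [if_pos rfl, if_neg (fun h => h1 h.2)]
        · rw [if_neg h2]
    have hg : ∀ s, (if R.r d = g s then (1 : ZMod 2) else 0) =
        if s = t then (if i = L t ∧ R.r d = g t then 1 else 0) else 0 := by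
      intro s
      by_cases h1 : R.r d = g s
      · have h2 : p s (L s) = p t i := by rw [hL, ← h1, R.fst_r, hd]
        obtain ⟨h3, h4⟩ := hP.inj s t (L s) i le_rfl hi h2
        subst h3
        rw [if_pos h1, if_pos rfl, if_pos ⟨h4.symm, h1⟩]
      · rw [if_neg h1]
        by_cases h2 : s = t
        · subst h2
          rw [if_pos rfl, if_neg (fun h => h1 h.2)]
        · rw [if_neg h2]
    rw [Finset.sum_add_distrib, Finset.sum_congr rfl (fun s _ => hf s),
      Finset.sum_congr rfl (fun s _ => hg s), Finset.sum_ite_eq' Finset.univ t,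
      Finset.sum_ite_eq' Finset.univ t, if_pos (Finset.mem_univ _), if_pos (Finset.mem_univ _)]
  -- the values of `X`
  have hPE : ∀ d : G.Dart, d.fst = p t i → (PE L p d.fst d.snd ↔
      (i < L t ∧ d.snd = p t (i + 1)) ∨ (0 < i ∧ d.snd = p t (i - 1))) := by
    intro d hd
    constructor
    · rintro ⟨s, j, hj, ⟨h1, h2⟩ | ⟨h1, h2⟩⟩
      · obtain ⟨h3, h4⟩ := hP.inj s t j i hj.le hi (h1.symm.trans hd)
        subst h3
        subst h4
        exact Or.inl ⟨hj, h2⟩
      · obtain ⟨h3, h4⟩ := hP.inj s t (j + 1) i hj hi (h1.symm.trans hd)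
        subst h3
        subst h4
        exact Or.inr ⟨Nat.succ_pos _, h2⟩
    · rintro (⟨h1, h2⟩ | ⟨h1, h2⟩)
      · exact ⟨t, i, h1, Or.inl ⟨hd, h2⟩⟩
      · refine ⟨t, i - 1, by omega, Or.inr ⟨?_, h2⟩⟩
        rw [hd]
        congr 1
        omega
  constructor
  · intro hiL
    have hng : ¬ i = L t := by omega
    by_cases hi0 : i = 0
    · refine ⟨R.r.symm (f t), ?_, ?_, ?_, ?_⟩
      · have h1 : (R.r (R.r.symm (f t))).fst = (R.r.symm (f t)).fst := R.fst_r _
        rw [← h1, Equiv.apply_symm_apply, ← h0, hi0]
      · intro _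
        exact Equiv.apply_symm_apply _ _
      · intro h
        omega
      · intro d hd
        rw [hq, hJ d hd]
        have h1 : X L p d = if d.snd = p t (i + 1) then 1 else 0 := by
          unfold X
          by_cases h2 : d.snd = p t (i + 1)
          · rw [if_pos h2, if_pos ((hPE d hd).2 (Or.inl ⟨hiL, h2⟩))]
          · rw [if_neg h2, if_neg]
            intro h3
            rcases (hPE d hd).1 h3 with h4 | h4
            · exact h2 h4.2
            · omega
        have h2 : (i = 0 ∧ R.r d = f t) ↔ d = R.r.symm (f t) := by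
          constructor
          · rintro ⟨_, h3⟩
            rw [← h3, Equiv.symm_apply_apply]
          · intro h3
            exact ⟨hi0, by rw [h3, Equiv.apply_symm_apply]⟩
        have h3 : ¬ (i = L t ∧ R.r d = g t) := fun h => hng h.1
        rw [h1, if_neg h3, add_zero, ← add_assoc]
        congr 1
        by_cases h4 : d = R.r.symm (f t)
        · rw [if_pos h4, if_pos (h2.2 h4)]
        · rw [if_neg h4, if_neg (fun h => h4 (h2.1 h))]
    · have hadj : G.Adj (p t i) (p t (i - 1)) := by
        have := (hP.adj t (i - 1) (by omega)).symm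
        rwa [show i - 1 + 1 = i by omega] at this
      refine ⟨⟨(p t i, p t (i - 1)), hadj⟩, rfl, fun h => absurd h hi0, fun _ => rfl, ?_⟩
      intro d hd
      rw [hq, hJ d hd]
      have hne : p t (i + 1) ≠ p t (i - 1) := by
        intro h
        have := (hP.inj t t (i + 1) (i - 1) (by omega) (by omega) h).2
        omega
      have hz : d = ⟨(p t i, p t (i - 1)), hadj⟩ ↔ d.snd = p t (i - 1) := by
        constructor
        · intro h
          rw [h]
        · intro h
          apply SimpleGraph.Dart.ext
          exact Prod.ext hd h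
      have h2 : ¬ (i = 0 ∧ R.r d = f t) := fun h => hi0 h.1
      have h3 : ¬ (i = L t ∧ R.r d = g t) := fun h => hng h.1
      rw [if_neg h2, if_neg h3, add_zero, add_zero, add_assoc]
      congr 1
      unfold X
      by_cases h4 : d.snd = p t (i + 1)
      · have h5 : ¬ d = ⟨(p t i, p t (i - 1)), hadj⟩ := by
          rw [hz, h4]
          exact hne
        rw [if_pos h4, if_neg h5, if_pos ((hPE d hd).2 (Or.inl ⟨hiL, h4⟩)), add_zero]
      · by_cases h5 : d.snd = p t (i - 1)
        · rw [if_neg h4, if_pos (hz.2 h5), if_pos ((hPE d hd).2 (Or.inr ⟨by omega, h5⟩)), zero_add]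
        · rw [if_neg h4, if_neg (fun h => h5 (hz.1 h)), if_neg, add_zero]
          intro h6
          rcases (hPE d hd).1 h6 with h7 | h7
          · exact h4 h7.2
          · exact h5 h7.2
  · intro hi0
    have hnf : ¬ i = 0 := by omega
    by_cases hiL : i = L t
    · refine ⟨R.r.symm (g t), ?_, ?_, ?_, ?_⟩
      · have h1 : (R.r (R.r.symm (g t))).fst = (R.r.symm (g t)).fst := R.fst_r _
        rw [← h1, Equiv.apply_symm_apply, ← hL, hiL]
      · intro _
        exact Equiv.apply_symm_apply _ _
      · intro h
        omega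
      · intro d hd
        rw [hq, hJ d hd]
        have h1 : X L p d = if d.snd = p t (i - 1) then 1 else 0 := by
          unfold X
          by_cases h2 : d.snd = p t (i - 1)
          · rw [if_pos h2, if_pos ((hPE d hd).2 (Or.inr ⟨hi0, h2⟩))]
          · rw [if_neg h2, if_neg]
            intro h3
            rcases (hPE d hd).1 h3 with h4 | h4
            · omega
            · exact h2 h4.2
        have h2 : (i = L t ∧ R.r d = g t) ↔ d = R.r.symm (g t) := by
          constructor
          · rintro ⟨_, h3⟩
            rw [← h3, Equiv.symm_apply_apply]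
          · intro h3
            exact ⟨hiL, by rw [h3, Equiv.apply_symm_apply]⟩
        have h3 : ¬ (i = 0 ∧ R.r d = f t) := fun h => hnf h.1
        rw [h1, if_neg h3, zero_add, ← add_assoc]
        congr 1
        by_cases h4 : d = R.r.symm (g t)
        · rw [if_pos h4, if_pos (h2.2 h4)]
        · rw [if_neg h4, if_neg (fun h => h4 (h2.1 h))]
    · have hiL' : i < L t := by omega
      have hadj : G.Adj (p t i) (p t (i + 1)) := hP.adj t i hiL'
      refine ⟨⟨(p t i, p t (i + 1)), hadj⟩, rfl, fun h => absurd h hiL, fun _ => rfl, ?_⟩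
      intro d hd
      rw [hq, hJ d hd]
      have hne : p t (i - 1) ≠ p t (i + 1) := by
        intro h
        have := (hP.inj t t (i - 1) (i + 1) (by omega) (by omega) h).2
        omega
      have hz : d = ⟨(p t i, p t (i + 1)), hadj⟩ ↔ d.snd = p t (i + 1) := by
        constructor
        · intro h
          rw [h]
        · intro h
          apply SimpleGraph.Dart.ext
          exact Prod.ext hd h
      have h2 : ¬ (i = 0 ∧ R.r d = f t) := fun h => hnf h.1
      have h3 : ¬ (i = L t ∧ R.r d = g t) := fun h => hiL h.1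
      rw [if_neg h2, if_neg h3, add_zero, add_zero, add_assoc]
      congr 1
      unfold X
      by_cases h4 : d.snd = p t (i - 1)
      · have h5 : ¬ d = ⟨(p t i, p t (i + 1)), hadj⟩ := by
          rw [hz, h4]
          exact hne
        rw [if_pos h4, if_neg h5, if_pos ((hPE d hd).2 (Or.inr ⟨hi0, h4⟩)), add_zero]
      · by_cases h5 : d.snd = p t (i + 1)
        · rw [if_neg h4, if_pos (hz.2 h5), if_pos ((hPE d hd).2 (Or.inl ⟨hiL', h5⟩)), zero_add]
        · rw [if_neg h4, if_neg (fun h => h5 (hz.1 h)), if_neg, add_zero]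
          intro h6
          rcases (hPE d hd).1 h6 with h7 | h7
          · exact h5 h7.2
          · exact h4 h7.2

end Pool.Agent.Helper64.OF
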