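import Pool.Agent.Helper64.OF.St

set_option autoImplicit false

namespace Pool.Agent.Helper64.OF

open Equiv Equiv.Perm Pool.Agent.Helper35.PM

theorem hTwo : StTwo := by
  intro D _ r g a b hab hs h1 h2 h3
  classical
  obtain ⟨s, hs1, hsa, hsb⟩ := exists_sep r hab hs
  have ha : (r * swap a b) a = r b := by rw [Perm.mul_apply, swap_apply_left]
  have hb : (r * swap a b) b = r a := by rw [Perm.mul_apply, swap_apply_right]
  have e1 : s (r b) = 1 := by rw [← ha, hs1, hsa]
  have e2 : s (r a) = 0 := by rw [← hb, hs1, hsb]
  have key : ∀ d, r.SameCycle a d → g (r d) + s (r d) = g d + s d := by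
    intro d hd
    by_cases hda : d = a
    · rw [hda, h2, e2, hsa]
      generalize g a = p
      revert p
      decide
    · by_cases hdb : d = b
      · rw [hdb, h3, e1, hsb]
        generalize g b = p
        revert p
        decide
      · rw [h1 d hd hda hdb]
        have : (r * swap a b) d = r d := by
          rw [Perm.mul_apply, swap_apply_of_ne_of_ne hda hdb]
        rw [← this, hs1]
  obtain ⟨k, hk⟩ := hs.exists_nat_pow_eq
  have h4 : ∀ n : ℕ, g ((r ^ n) a) + s ((r ^ n) a) = g a + s a := by
    intro n
    induction n with
    | zero => simp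
    | succ n ih =>
      rw [pow_succ', Perm.mul_apply, key _ ⟨n, by simp⟩, ih]
  have h5 := h4 k
  rw [hk, hsa, hsb] at h5
  revert h5
  generalize g a = p
  generalize g b = q
  revert p q
  decide

end Pool.Agent.Helper64.OF
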