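import Pool.Agent.Helper64.OF.M_Two

set_option autoImplicit false

namespace Pool.Agent.Helper64.OF

open Equiv Equiv.Perm Pool.Agent.Helper35.PM

theorem X_symm {V : Type} {G : SimpleGraph V} {T : Type} (L : T → ℕ) (p : T → ℕ → V)
    (d : G.Dart) : X L p d.symm = X L p d := by
  classical
  have h : PE L p d.symm.fst d.symm.snd ↔ PE L p d.fst d.snd := by
    constructor
    · rintro ⟨t, i, hi, h | h⟩
      · exact ⟨t, i, hi, Or.inr ⟨h.2, h.1⟩⟩
      · exact ⟨t, i, hi, Or.inl ⟨h.2, h.1⟩⟩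
    · rintro ⟨t, i, hi, h | h⟩
      · exact ⟨t, i, hi, Or.inr ⟨h.2, h.1⟩⟩
      · exact ⟨t, i, hi, Or.inl ⟨h.2, h.1⟩⟩
  unfold X
  by_cases h1 : PE L p d.fst d.snd
  · rw [if_pos h1, if_pos (h.2 h1)]
  · rw [if_neg h1, if_neg (fun h2 => h1 (h.1 h2))]

theorem X_off {V : Type} {G : SimpleGraph V} {T : Type} (L : T → ℕ) (p : T → ℕ → V)
    (d : G.Dart) (h : d.fst ∉ PV L p) : X L p d = 0 := by
  classical
  unfold X
  rw [if_neg]
  rintro ⟨t, i, hi, ⟨h1, h2⟩ | ⟨h1, h2⟩⟩
  · exact h ⟨t, i, hi.le, h1⟩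
  · exact h ⟨t, i + 1, hi, h1⟩

theorem J_off {V : Type} {G : SimpleGraph V} (R : Rot G) {k : ℕ} (f g : Fin k → G.Dart)
    (L : Fin k → ℕ) (p : Fin k → ℕ → V) (h0 : ∀ t, p t 0 = (f t).fst)
    (hL : ∀ t, p t (L t) = (g t).fst) (d : G.Dart) (h : d.fst ∉ PV L p) : J R f g d = 0 := by
  classical
  unfold J
  refine Finset.sum_eq_zero fun t _ => ?_
  have h1 : R.r d ≠ f t := by
    intro h1
    apply h
    refine ⟨t, 0, Nat.zero_le _, ?_⟩
    rw [h0, ← h1, R.fst_r]
  have h2 : R.r d ≠ g t := by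
    intro h1
    apply h
    refine ⟨t, L t, le_refl _, ?_⟩
    rw [hL, ← h1, R.fst_r]
  rw [if_neg h1, if_neg h2, add_zero]

/-- the two-sided colouring exists -/
theorem exists_q (hPot : StPot) (hPP : StPP) (hQV : StQV) (hQF : StQF) (V : Type) [Fintype V]
    (G : SimpleGraph V) (R : Rot G) (k : ℕ) (f g : Fin k → G.Dart) (L : Fin k → ℕ)
    (p : Fin k → ℕ → V) (hP : Paths G L p) (h0 : ∀ t, p t 0 = (f t).fst)
    (hL : ∀ t, p t (L t) = (g t).fst)
    (hodd : ∀ d, Odd (Function.minimalPeriod R.φ d) ↔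
      ∃ t, R.φ.SameCycle (f t) d ∨ R.φ.SameCycle (g t) d)
    (hfg : ∀ s t, ¬ R.φ.SameCycle (f s) (g t)) (hff : ∀ s t, R.φ.SameCycle (f s) (f t) → s = t)
    (hgg : ∀ s t, R.φ.SameCycle (g s) (g t) → s = t) :
    ∃ q : G.Dart → ZMod 2, (∀ d, q (R.r d) = q d + (X L p d + J R f g d)) ∧
      ∀ d : G.Dart, q d.symm = q d + X L p d + 1 := by
  classical
  obtain ⟨α, hα⟩ := hPot V G.Dart R.map (fun d => X L p d + J R f g d) (by
    intro v
    have := hQV V G R k f g L p hP h0 hL v
    convert this using 2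
    ext d
    simp only [Finset.mem_filter, Finset.mem_univ, true_and]
    exact Iff.rfl)
  obtain ⟨γ, hγ⟩ := hPP G.Dart R.φ (fun d => 1 + J R f g d.symm)
    (hQF V G R k f g hodd hfg hff hgg)
  obtain ⟨q, hq1, hq2⟩ := coh R.pl SimpleGraph.Dart.symm_involutive
    (fun d => X L p d + J R f g d) (fun d => X L p d + 1) α γ
    (fun d => by
      show X L p d.symm + 1 = X L p d + 1
      rw [X_symm]) hα
    (fun d => by
      have h1 := hγ d
      rw [Rot.φ_apply] at h1
      rw [h1]
      show γ d + (1 + J R f g d.symm) = γ d + (X L p d + 1) + (X L p d.symm + J R f g d.symm)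
      rw [X_symm]
      generalize γ d = a1
      generalize J R f g d.symm = a2
      generalize X L p d = a3
      revert a1 a2 a3
      decide)
  refine ⟨q, hq1, fun d => ?_⟩
  rw [hq2, add_assoc]

/-- the main theorem from the modules -/
theorem main_of (hPot : StPot) (hPP : StPP) (hGEO : StGeo) (hQV : StQV) (hQF : StQF)
    (hRul : StRul) (hDsc : StDsc) (hComb : StComb) : StMain := by
  intro V _ G R k f g hconn htf hodd hfg hff hgg hfar hsep
  classical
  obtain ⟨L, p, hP, h0, hL⟩ :=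
    hGEO V G k (fun t => (f t).fst) (fun t => (g t).fst) hconn htf hfar
  obtain ⟨q, hq1, hq2⟩ :=
    exists_q hPot hPP hQV hQF V G R k f g L p hP h0 hL hodd hfg hff hgg
  -- `q` is constant around the vertices off the paths
  have hconst : ∀ d d' : G.Dart, d.fst = d'.fst → d.fst ∉ PV L p → q d = q d' := by
    intro d d' h1 h2
    obtain ⟨n, hn⟩ := (R.trans d d' h1).exists_nat_pow_eq
    rw [← hn]
    clear hn
    induction n with
    | zero => simp
    | succ n ih =>
      rw [pow_succ', Perm.mul_apply, hq1, ← ih]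
      have h3 : ((R.r ^ n) d).fst = d.fst := R.map.t_pow d n
      have h4 : ((R.r ^ n) d).fst ∉ PV L p := by rw [h3]; exact h2
      rw [X_off L p _ h4, J_off R f g L p h0 hL _ h4, add_zero, add_zero]
  let c : V → ZMod 2 := fun v => if h : ∃ d : G.Dart, d.fst = v then q h.choose else 0
  have hc : ∀ d : G.Dart, d.fst ∉ PV L p → c d.fst = q d := by
    intro d hd
    have h : ∃ e : G.Dart, e.fst = d.fst := ⟨d, rfl⟩
    show (if h : ∃ e : G.Dart, e.fst = d.fst then q h.choose else 0) = q d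
    rw [dif_pos h]
    refine hconst _ _ h.choose_spec ?_
    rw [h.choose_spec]
    exact hd
  have hprop : ∀ u v, u ∉ PV L p → v ∉ PV L p → G.Adj u v → c u ≠ c v := by
    intro u v hu hv huv
    have h1 := hc ⟨(u, v), huv⟩ hu
    have h2 := hc ⟨(v, u), huv.symm⟩ hv
    have h3 := hq2 ⟨(u, v), huv⟩
    have h4 : (⟨(u, v), huv⟩ : G.Dart).symm = ⟨(v, u), huv.symm⟩ := rfl
    rw [h4, X_off L p _ hu, add_zero] at h3
    change c u = _ at h1
    change c v = _ at h2
    rw [h1, h2, h3]
    generalize q ⟨(u, v), huv⟩ = a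
    revert a
    decide
  have hval : ∀ t i, i + 2 ≤ L t → ∀ (d e : G.Dart), d.fst = p t (i + 1) → d.snd = p t i →
      e.fst = p t (i + 1) → e.snd = p t (i + 2) → q e = q d + 1 := by
    intro t i hi d e hd1 hd2 he1 he2
    obtain ⟨h1, -⟩ := hRul V G R k f g L p q hP h0 hL hq1 t (i + 1) (by omega)
    obtain ⟨z, hz1, -, hz2, hz3⟩ := h1 (by omega)
    have hzd : z = d := by
      apply SimpleGraph.Dart.ext
      apply Prod.ext
      · exact hz1.trans hd1.symm
      · exact (hz2 (by omega)).trans (by rw [hd2]; rfl)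
    have hne : p t i ≠ p t (i + 2) := by
      intro h
      have := (hP.inj t t i (i + 2) (by omega) hi h).2
      omega
    have hed : e ≠ d := by
      rintro rfl
      exact hne (hd2.symm.trans he2)
    have hcyc : R.r.SameCycle e d := R.trans e d (he1.trans hd1.symm)
    refine hTwo G.Dart R.r q e d hed hcyc ?_ ?_ ?_
    · intro d' hd' h4 h5
      have h6 : d'.fst = p t (i + 1) := by
        rw [← he1]
        exact (R.map.t_eq_of_sameCycle hd').symm
      rw [hz3 d' h6, if_neg, if_neg, add_zero, add_zero]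
      · rw [hzd]; exact h5
      · intro h7
        apply h4
        apply SimpleGraph.Dart.ext
        apply Prod.ext
        · exact h6.trans he1.symm
        · exact h7.trans he2.symm
    · rw [hz3 e he1, if_pos he2, if_neg (by rw [hzd]; exact hed), add_zero]
    · rw [hz3 d hd1, if_neg, if_pos hzd.symm, add_zero]
      intro h7
      exact hne (hd2.symm.trans h7)
  exact hComb V (Fin k) G L p c hP hprop (fun t i v0 hi hv0 hcv h1 h2 =>
    hDsc V G R k f g L p q c htf hP h0 hL hsep hq1 hq2 hc hval t i v0 hi hv0 hcv h1 h2)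

end Pool.Agent.Helper64.OF
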