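import Pool.Agent.Helper64.OF.Main
import Pool.Agent.Helper64.OF.Dsc2

set_option autoImplicit false

namespace Pool.Agent.Helper64.OF

open Equiv Equiv.Perm Pool.Agent.Helper35.PM

/-- the theorem for a given system of paths -/
theorem nb_of_paths (hPot : StPot) (hPP : StPP) (hQV : StQV) (hQF : StQF)
    (hRul : StRul) (hDsc : StDsc2) (hComb : StComb) (V : Type) [Fintype V] (G : SimpleGraph V)
    (R : Rot G) (k : ℕ) (f g : Fin k → G.Dart) (htf : TF G)
    (hodd : ∀ d, Odd (Function.minimalPeriod R.φ d) ↔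
      ∃ t, R.φ.SameCycle (f t) d ∨ R.φ.SameCycle (g t) d)
    (hfg : ∀ s t, ¬ R.φ.SameCycle (f s) (g t)) (hff : ∀ s t, R.φ.SameCycle (f s) (f t) → s = t)
    (hgg : ∀ s t, R.φ.SameCycle (g s) (g t) → s = t) (L : Fin k → ℕ) (p : Fin k → ℕ → V)
    (hP : Paths G L p) (h0 : ∀ t, p t 0 = (f t).fst) (hL : ∀ t, p t (L t) = (g t).fst)
    (hsep : LocSep R f L p) : NB G := by
  classical
  obtain ⟨q, hq1, hq2⟩ :=
    exists_q hPot hPP hQV hQF V G R k f g L p hP h0 hL hodd hfg hff hgg
  -- `q` is constant around the vertices off the paths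
  have hconst : ∀ d d' : G.Dart, d.fst = d'.fst → d.fst ∉ PV L p → q d = q d' := by
    intro d d' h1 h2
    obtain ⟨n, hn⟩ := (R.trans d d' h1).exists_nat_pow_eq
    rw [← hn]
    clear hn
    induction n with
    | zero => simp
    | succ n ih =>
      rw [pow_succ', Perm.mul_apply, hq1, ← ih]
      have h3 : ((R.r ^ n) d).fst = d.fst := R.map.t_pow d n
      have h4 : ((R.r ^ n) d).fst ∉ PV L p := by rw [h3]; exact h2
      rw [X_off L p _ h4, J_off R f g L p h0 hL _ h4, add_zero, add_zero]
  let c : V → ZMod 2 := fun v => if h : ∃ d : G.Dart, d.fst = v then q h.choose else 0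
  have hc : ∀ d : G.Dart, d.fst ∉ PV L p → c d.fst = q d := by
    intro d hd
    have h : ∃ e : G.Dart, e.fst = d.fst := ⟨d, rfl⟩
    show (if h : ∃ e : G.Dart, e.fst = d.fst then q h.choose else 0) = q d
    rw [dif_pos h]
    refine hconst _ _ h.choose_spec ?_
    rw [h.choose_spec]
    exact hd
  have hprop : ∀ u v, u ∉ PV L p → v ∉ PV L p → G.Adj u v → c u ≠ c v := by
    intro u v hu hv huv
    have h1 := hc ⟨(u, v), huv⟩ hu
    have h2 := hc ⟨(v, u), huv.symm⟩ hv
    have h3 := hq2 ⟨(u, v), huv⟩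
    have h4 : (⟨(u, v), huv⟩ : G.Dart).symm = ⟨(v, u), huv.symm⟩ := rfl
    rw [h4, X_off L p _ hu, add_zero] at h3
    change c u = _ at h1
    change c v = _ at h2
    rw [h1, h2, h3]
    generalize q ⟨(u, v), huv⟩ = a
    revert a
    decide
  have hval : ∀ t i, i + 2 ≤ L t → ∀ (d e : G.Dart), d.fst = p t (i + 1) → d.snd = p t i →
      e.fst = p t (i + 1) → e.snd = p t (i + 2) → q e = q d + 1 := by
    intro t i hi d e hd1 hd2 he1 he2
    obtain ⟨h1, -⟩ := hRul V G R k f g L p q hP h0 hL hq1 t (i + 1) (by omega)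
    obtain ⟨z, hz1, -, hz2, hz3⟩ := h1 (by omega)
    have hzd : z = d := by
      apply SimpleGraph.Dart.ext
      apply Prod.ext
      · exact hz1.trans hd1.symm
      · exact (hz2 (by omega)).trans (by rw [hd2]; rfl)
    have hne : p t i ≠ p t (i + 2) := by
      intro h
      have := (hP.inj t t i (i + 2) (by omega) hi h).2
      omega
    have hed : e ≠ d := by
      rintro rfl
      exact hne (hd2.symm.trans he2)
    have hcyc : R.r.SameCycle e d := R.trans e d (he1.trans hd1.symm)
    refine hTwo G.Dart R.r q e d hed hcyc ?_ ?_ ?_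
    · intro d' hd' h4 h5
      have h6 : d'.fst = p t (i + 1) := by
        rw [← he1]
        exact (R.map.t_eq_of_sameCycle hd').symm
      rw [hz3 d' h6, if_neg, if_neg, add_zero, add_zero]
      · rw [hzd]; exact h5
      · intro h7
        apply h4
        apply SimpleGraph.Dart.ext
        apply Prod.ext
        · exact h6.trans he1.symm
        · exact h7.trans he2.symm
    · rw [hz3 e he1, if_pos he2, if_neg (by rw [hzd]; exact hed), add_zero]
    · rw [hz3 d hd1, if_neg, if_pos hzd.symm, add_zero]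
      intro h7
      exact hne (hd2.symm.trans h7)
  exact hComb V (Fin k) G L p c hP hprop (fun t i v0 hi hv0 hcv h1 h2 =>
    hDsc V G R k f g L p q c htf hP h0 hL hsep hq1 hq2 hc hval t i v0 hi hv0 hcv h1 h2)

end Pool.Agent.Helper64.OF
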