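import Pool.Agent.Helper35.PM.St2

/-!
# Plane graphs whose odd faces are joined by distant geodesics are near-bipartite: statements

`G` is a connected triangle-free graph with a planar rotation system `R` (`R.φ` is the face
permutation). The faces of odd length are the faces of the darts `f t` and `g t`, `t < k`. For every
`t` let `p t 0, ..., p t (L t)` be a geodesic of `G` from the vertex `(f t).fst` to the vertex
`(g t).fst`; different geodesics have distance at least `3`. Then `V(G)` is the union of an
independent set and a set inducing a forest, if no cycle of length four separates `f s` from `f t`.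
In particular this holds if there are at most two odd faces.
-/

set_option autoImplicit false

namespace Pool.Agent.Helper64.OF

open Equiv Equiv.Perm Pool.Agent.Helper35.PM

/-! ### Cohomology: general increments -/

/-- In a plane map, increments `a` along the rotation and `b` along the edges are realized by a global
function as soon as they are realized around the vertices (by `α`) and around the faces (by `γ`). -/
theorem coh {D : Type} {r : Perm D} {ι : D → D} (h : Pl r ι) (hι : Function.Involutive ι)
    (a b α γ : D → ZMod 2) (hb : ∀ d, b (ι d) = b d) (hα : ∀ d, α (r d) = α d + a d)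
    (hγ : ∀ d, γ (r (ι d)) = γ d + b d + a (ι d)) :
    ∃ y : D → ZMod 2, (∀ d, y (r d) = y d + a d) ∧ ∀ d, y (ι d) = y d + b d := by
  have hγr : ∀ d, γ (r d) = γ (ι d) + b d + a d := by
    intro d
    have := hγ (ι d)
    rw [hι, hb] at this
    exact this
  obtain ⟨y, hy1, hy2⟩ := h (fun d => γ d + γ (ι d) + b d) (fun d => α d + γ d)
    (fun d => by
      show γ (ι d) + γ (ι (ι d)) + b (ι d) = γ d + γ (ι d) + b d
      rw [hι, hb, add_comm (γ (ι d))])
    (fun d => by
      show α (r d) + γ (r d) = α d + γ d + (γ d + γ (ι d) + b d)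
      rw [hα, hγr]
      generalize α d = p1
      generalize γ d = p2
      generalize γ (ι d) = p3
      generalize a d = p4
      generalize b d = p5
      revert p1 p2 p3 p4 p5
      decide)
  refine ⟨fun d => y d + γ d, ?_, ?_⟩
  · intro d
    show y (r d) + γ (r d) = y d + γ d + a d
    rw [hy1, hγr]
    show y d + (γ d + γ (ι d) + b d) + (γ (ι d) + b d + a d) = y d + γ d + a d
    generalize y d = p1
    generalize γ d = p2
    generalize γ (ι d) = p3
    generalize a d = p4
    generalize b d = p5
    revert p1 p2 p3 p4 p5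
    decide
  · intro d
    show y (ι d) + γ (ι d) = y d + γ d + b d
    rw [hy2]
    show y d + (γ d + γ (ι d) + b d) + γ (ι d) = y d + γ d + b d
    generalize y d = p1
    generalize γ d = p2
    generalize γ (ι d) = p3
    generalize b d = p5
    revert p1 p2 p3 p5
    decide

/-! ### Module PP -/

/-- MODULE PP (potentials of a permutation). A function `g` on a finite set with even sum over every
cycle of the permutation `π` has a potential.
PROOF. Copy `Pool.Agent.Helper35.PM.M_POT` (there the cycles of `π = M.r` are the fibres of `M.t`, and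
the sum over a cycle is the lemma `full`; here it is the hypothesis): choose a base point `B d` in
every cycle (for instance `B d` = `Classical.choose` of the predicate `fun e => π.SameCycle d e`, which
depends only on the cycle, by funext/propext), `k d` with `π^(k d) (B d) = d`, and put
`γ d = sum_{j < k d} g (π^j (B d))`. Well defined: if `π^k b = π^l b`, `k ≤ l`, then `l - k` is a
multiple of the minimal period and the sum over `[k, l)` is a sum over full cycles, so `0`. -/
def StPP : Prop :=
  ∀ (D : Type) [Fintype D] (π : Perm D) (g : D → ZMod 2),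
    (∀ d, ∑ j ∈ Finset.range (Function.minimalPeriod π d), g ((π ^ j) d) = 0) →
    ∃ γ : D → ZMod 2, ∀ d, γ (π d) = γ d + g d

/-! ### The paths -/

/-- the paths `p t 0, ..., p t (L t)`: distinct vertices, adjacent only if consecutive, a common
neighbour only at distance two on the same path -/
structure Paths {V : Type} (G : SimpleGraph V) {T : Type} (L : T → ℕ) (p : T → ℕ → V) : Prop where
  adj : ∀ t i, i < L t → G.Adj (p t i) (p t (i + 1))
  inj : ∀ s t i j, i ≤ L s → j ≤ L t → p s i = p t j → s = t ∧ i = j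
  ind : ∀ s t i j, i ≤ L s → j ≤ L t → G.Adj (p s i) (p t j) → s = t ∧ (j = i + 1 ∨ i = j + 1)
  com : ∀ s t i j v, i ≤ L s → j ≤ L t → G.Adj (p s i) v → G.Adj (p t j) v →
    s = t ∧ (i = j ∨ j = i + 2 ∨ i = j + 2)

/-- the vertices of the paths -/
def PV {V T : Type} (L : T → ℕ) (p : T → ℕ → V) : Set V := {v | ∃ t i, i ≤ L t ∧ v = p t i}

/-- the ordered pair `(a, b)` is an edge of one of the paths -/
def PE {V T : Type} (L : T → ℕ) (p : T → ℕ → V) (a b : V) : Prop :=
  ∃ t i, i < L t ∧ ((a = p t i ∧ b = p t (i + 1)) ∨ (a = p t (i + 1) ∧ b = p t i))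

/-! ### Module GEO -/

/-- MODULE GEO (geodesics). In a connected triangle-free graph let `a t`, `b t` be vertices such that for
`s ≠ t` every vertex on a geodesic from `a s` to `b s` has distance at least `3` from every vertex on a
geodesic from `a t` to `b t`. Then there are paths as above with `p t 0 = a t`, `p t (L t) = b t`.
PROOF. `L t = dist (a t) (b t)`, take a walk of length `L t` (`SimpleGraph.Connected.exists_walk_length_eq_dist`)
and `p t i = w.getVert i`. Then `dist (a t) (p t i) = i` and `dist (p t i) (b t) = L t - i` (walks of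
these lengths exist and the triangle inequality `SimpleGraph.Connected.dist_triangle`), so
`dist (p t i) (p t j) = |i - j|` (at least `|i - j|` by the triangle inequality from `a t`). Every `p t i`,
`i ≤ L t`, is on a geodesic. `inj`: for `s ≠ t` the distance is at least `3`, for `s = t` it is `|i - j|`.
`ind`: adjacent vertices have distance `1`. `com`: a common neighbour gives distance at most `2`, so
`s = t` and `|i - j| ≤ 2`, and `|i - j| = 1` would give a triangle `p t i, p t j, v`. -/
def StGeo : Prop :=
  ∀ (V : Type) [Fintype V] (G : SimpleGraph V) (k : ℕ) (a b : Fin k → V), G.Connected → TF G →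
    (∀ s t, s ≠ t → ∀ u v, G.dist (a s) u + G.dist u (b s) = G.dist (a s) (b s) →
      G.dist (a t) v + G.dist v (b t) = G.dist (a t) (b t) → 3 ≤ G.dist u v) →
    ∃ (L : Fin k → ℕ) (p : Fin k → ℕ → V), Paths G L p ∧
      (∀ t, p t 0 = a t) ∧ ∀ t, p t (L t) = b t

/-! ### Module QV, QF, QEX : the two-sided colouring -/

open Classical in
/-- the jumps: `1` at the darts `r⁻¹ (f t)` and `r⁻¹ (g t)` -/
noncomputable def J {V : Type} {G : SimpleGraph V} (R : Rot G) {k : ℕ} (f g : Fin k → G.Dart)
    (d : G.Dart) : ZMod 2 :=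
  ∑ t, ((if R.r d = f t then 1 else 0) + (if R.r d = g t then 1 else 0))

open Classical in
/-- the indicator of the darts of the paths -/
noncomputable def X {V : Type} {G : SimpleGraph V} {T : Type} (L : T → ℕ) (p : T → ℕ → V)
    (d : G.Dart) : ZMod 2 := if PE L p d.fst d.snd then 1 else 0

open Classical in
/-- MODULE QV (vertex sums). The sum of `X + J` over the darts at a vertex `v` is even.
PROOF. If `v` is not on a path both summands vanish at all darts at `v` (`R.r d = f t` implies
`d.fst = (f t).fst = p t 0`). Let `v = p t i`. By `Paths.inj` the pair `t, i` is unique. The darts at `v`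
with `PE` are those to `p t (i+1)` (if `i < L t`) and to `p t (i-1)` (if `0 < i`), which are different, so
the sum of `X` is `[0 < i] + [i < L t]`. The sum of `J` over the darts at `v` is
`sum_t' [ (f t').fst = v ] + [ (g t').fst = v ] = [i = 0] + [i = L t]` (exactly one dart `d` with
`R.r d = f t'`, and it starts at `(f t').fst`). The total is `2 = 0`. -/
def StQV : Prop :=
  ∀ (V : Type) [Fintype V] (G : SimpleGraph V) (R : Rot G) (k : ℕ) (f g : Fin k → G.Dart)
    (L : Fin k → ℕ) (p : Fin k → ℕ → V), Paths G L p →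
    (∀ t, p t 0 = (f t).fst) → (∀ t, p t (L t) = (g t).fst) →
    ∀ v, ∑ d ∈ Finset.univ.filter (fun d : G.Dart => d.fst = v), (X L p d + J R f g d) = 0

/-- MODULE QF (face sums). If the faces of odd length are exactly the `2k` different faces of the darts
`f t`, `g t`, then `1 + J (symm d)` has even sum over every face.
PROOF. `R.r (symm e) = R.φ e`, so `J (symm e) = sum_t [φ e = f t] + [φ e = g t]`, and the sum over the
`n = minimalPeriod φ d` darts `e = φ^j d` of a face is `sum_t [f t in the face] + [g t in the face]`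
(`φ` permutes the darts of the face and every dart of the face occurs exactly once among the
`φ^j d`, `j < n`). Since the faces are different this is `1` if `n` is odd and `0` if `n` is even. -/
def StQF : Prop :=
  ∀ (V : Type) [Fintype V] (G : SimpleGraph V) (R : Rot G) (k : ℕ) (f g : Fin k → G.Dart),
    (∀ d, Odd (Function.minimalPeriod R.φ d) ↔ ∃ t, R.φ.SameCycle (f t) d ∨ R.φ.SameCycle (g t) d) →
    (∀ s t, ¬ R.φ.SameCycle (f s) (g t)) → (∀ s t, R.φ.SameCycle (f s) (f t) → s = t) →
    (∀ s t, R.φ.SameCycle (g s) (g t) → s = t) →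
    ∀ d, ∑ j ∈ Finset.range (Function.minimalPeriod R.φ d), (1 + J R f g ((R.φ ^ j) d).symm) = 0

/-! ### Module TR (a common neighbour of `u0` and `u2`) -/

open Classical in
/-- MODULE TR. `u0, u1, u2` is a path; `q` is a function on the darts which changes its value around `u0`
at the dart to `u1` and at the stop dart `z0` (twice if these are the same dart), around `u1`
exactly at the darts to `u0` and `u2`, around `u2` at the dart to `u1` and at the stop dart `z2`.
All vertices of `K` are adjacent to `u0` and `u2`, with darts of value `0`. Then for a suitable `w` in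
`K` the 4-cycle `u0 u1 u2 w` has a side function `y` (the library structure `Side`: `y` is constant on
faces; off the cycle `y d.symm = y d`, `y (r d) = y d`; `y = 0` on the darts `(u0,u1), (u1,u2), (u2,w),
(w,u0)`, `y = 1` on the opposite darts) such that `y = 1` at the darts from `u0` to `K`, and `y` is
related to `q` as stated.

PROOF. First, for every side function `y (r d) = y (φ d.symm) = y d.symm` for all `d` (field `face`).
Let `e0 = (u0,u1)`, `N` its period under `r` (`N > 0`); all darts at `u0` are `r^k e0`, `0 ≤ k < N`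
(or `1 ≤ k ≤ N`). CHOICE of `w`: for `v ∈ K` let `1 ≤ k_v < N` be the index of the dart `(u0,v)`
(`k_v ≠ 0` because `v ≠ u1`); choose `w ∈ K` with the largest index `κ = k_w`. The vertices
`u0, u1, u2, w` are different (`w ∉ {u0, u2}` by adjacency, `w ≠ u1` as `u1 ∉ K`), they form a cycle
`![u0, u1, u2, w]`, and `Pool.Agent.Helper35.PM.stSide` (`D_SIDE.main`, see `All.lean`) gives `y`.
AT `u0`: `y e0 = 0`, `y (r e0) = y e0.symm = 1`; for `1 ≤ k < κ` the dart `r^k e0` is not on the cycle
(it is neither `e0` nor `(u0,w)`), so `y (r^(k+1) e0) = y (r^k e0) = 1`; so `y (r^k e0) = 1` for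
`1 ≤ k ≤ κ`; `y (r^(κ+1) e0) = y (w,u0) = 0`, and in the same way `y (r^k e0) = 0` for `κ < k ≤ N`.
In particular `y = 1` at `(u0,v)` for all `v ∈ K`. Let `m < N` be the index of `z0`. If `m = 0` then `q` is
constant `1` around `u0` (both changes are at `e0` and cancel), a contradiction to `q (u0,w) = 0`. So
`1 ≤ m < N`, `q (r^k e0) = 0` for `1 ≤ k ≤ m` and `q (r^k e0) = 1` for `m < k ≤ N`. As
`q (u0,w) = 0`: `κ ≤ m`. So `y (r z0) = y (r^(m+1) e0) = 0` and, if `z0.snd ∉ K`, `m ≠ κ` and
`y z0 = 0`; and `y d = 1` at `u0` means index in `[1, κ]`, which is contained in `[1, m]`, so `q d = 0`.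
AT `u1`: `y (r d) = y d + [d = (u1,u0)] + [d = (u1,u2)]`, the same rule as for `q`, and
`y (u1,u0) = 1 = q (u1,u0)`; all darts at `u1` are `r^k (u1,u0)`; so `y = q` at `u1`.
AT `u2`: let `e = (u2,u1)`, `N` its period, `m < N` the index of `z2`, `κ'` the index of `(u2,w)`,
`1 ≤ κ' < N`. `y e = 1`, `y (r e) = y (u1,u2) = 0`, so `y (r^k e) = 0` for `1 ≤ k ≤ κ'`,
`y (r^(κ'+1) e) = y (w,u2) = 1` and `y (r^k e) = 1` for `κ' < k ≤ N`. `q e = 0`; if `m = 0` then `q`
is constant `0` at `u2` and `y (r z2) = y (r e) = 0`, `z2.snd = u1`. If `m ≥ 1`: `q (r^k e) = 1` for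
`1 ≤ k ≤ m` and `0` for `m < k ≤ N`, so `κ' > m`, `y z2 = 0`, `y (r z2) = 0` (`m + 1 ≤ κ'`), and `y d = 1`
at `u2` means index in `(κ', N]`, so `q d = 0`. -/
def StTR : Prop :=
  ∀ (V : Type) [Fintype V] (G : SimpleGraph V) (R : Rot G) (q : G.Dart → ZMod 2) (K : Set V)
    (u0 u1 u2 : V) (h01 : G.Adj u0 u1) (h12 : G.Adj u1 u2) (z0 z2 : G.Dart), u0 ≠ u2 →
    z0.fst = u0 → z2.fst = u2 →
    (∀ d : G.Dart, d.fst = u0 →
      q (R.r d) = q d + (if d.snd = u1 then 1 else 0) + (if d = z0 then 1 else 0)) →
    (∀ d : G.Dart, d.fst = u1 →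
      q (R.r d) = q d + (if d.snd = u0 then 1 else 0) + (if d.snd = u2 then 1 else 0)) →
    (∀ d : G.Dart, d.fst = u2 →
      q (R.r d) = q d + (if d.snd = u1 then 1 else 0) + (if d = z2 then 1 else 0)) →
    q ⟨(u0, u1), h01⟩ = 1 → q ⟨(u1, u0), h01.symm⟩ = 1 → q ⟨(u1, u2), h12⟩ = 0 →
    q ⟨(u2, u1), h12.symm⟩ = 0 →
    u1 ∉ K → (∀ v ∈ K, G.Adj u0 v ∧ G.Adj u2 v) →
    (∀ d : G.Dart, d.fst = u0 → d.snd ∈ K → q d = 0) →
    (∀ d : G.Dart, d.fst = u2 → d.snd ∈ K → q d = 0) → K.Nonempty →
    ∃ w ∈ K, ∃ y : G.Dart → ZMod 2, Cyc G 4 ![u0, u1, u2, w] ∧ Side R 4 ![u0, u1, u2, w] y ∧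
      (∀ d : G.Dart, d.fst = u0 → d.snd ∈ K → y d = 1) ∧
      y (R.r z0) = 0 ∧ (z0.snd ∉ K → y z0 = 0) ∧
      y (R.r z2) = 0 ∧ (z2.snd ≠ u1 → y z2 = 0) ∧
      (∀ d : G.Dart, d.fst = u0 → y d = 1 → q d = 0) ∧
      (∀ d : G.Dart, d.fst = u1 → y d = q d) ∧
      (∀ d : G.Dart, d.fst = u2 → y d = 1 → q d = 0)

/-! ### Module RUL (the rules around the vertices of the paths) -/

open Classical in
/-- MODULE RUL. The rotation rule of `q` at the vertices of the paths.
PROOF. Fix `t` and `i ≤ L t`, `u = p t i`. For a dart `d` at `u`: `X d = 1` iff (`i < L t` and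
`d.snd = p t (i+1)`) or (`0 < i` and `d.snd = p t (i-1)`) (`PE` and `Paths.inj`; these two conditions exclude each
other, as `p t (i+1) ≠ p t (i-1)`); and `J d = [i = 0 and R.r d = f t] + [i = L t and R.r d = g t]`: a term
`[R.r d = f s]` can be `1` only if `p s 0 = (f s).fst = (R.r d).fst = u = p t i`, so `s = t`, `i = 0`;
the same for `g`. First statement (`i < L t`): if `i = 0` take `z = R.r⁻¹ (f t)` (`d = z` iff
`R.r d = f t`), if `0 < i` take the dart `z` from `p t i` to `p t (i-1)` (then `J d = 0`, and for darts `d` at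
`u`: `d = z` iff `d.snd = p t (i-1)`). Second statement in the same way with `g`. -/
def StRul : Prop :=
  ∀ (V : Type) [Fintype V] (G : SimpleGraph V) (R : Rot G) (k : ℕ) (f g : Fin k → G.Dart)
    (L : Fin k → ℕ) (p : Fin k → ℕ → V) (q : G.Dart → ZMod 2), Paths G L p →
    (∀ t, p t 0 = (f t).fst) → (∀ t, p t (L t) = (g t).fst) →
    (∀ d, q (R.r d) = q d + (X L p d + J R f g d)) →
    ∀ t i, i ≤ L t →
      (i < L t → ∃ z : G.Dart, z.fst = p t i ∧ (i = 0 → R.r z = f t) ∧
        (0 < i → z.snd = p t (i - 1)) ∧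
        ∀ d : G.Dart, d.fst = p t i →
          q (R.r d) = q d + (if d.snd = p t (i + 1) then 1 else 0) + (if d = z then 1 else 0)) ∧
      (0 < i → ∃ z : G.Dart, z.fst = p t i ∧ (i = L t → R.r z = g t) ∧
        (i < L t → z.snd = p t (i + 1)) ∧
        ∀ d : G.Dart, d.fst = p t i →
          q (R.r d) = q d + (if d.snd = p t (i - 1) then 1 else 0) + (if d = z then 1 else 0))

/-! ### Module TWO -/

/-- MODULE TWO. A function which changes its value along a cycle of a permutation exactly at `a` and at
`b ≠ a` has different values at `a` and `b`.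
PROOF. `Pool.Agent.Helper35.PM.exists_sep` gives `s` with `s ((r * swap a b) d) = s d`, `s a = 1`,
`s b = 0`; so `s (r b) = s a = 1`, `s (r a) = s b = 0` and `s (r d) = s d` for `d ≠ a, b`. So `g + s` is
invariant under `r` along the cycle, `g a + 1 = g b + 0`. -/
def StTwo : Prop :=
  ∀ (D : Type) [Finite D] (r : Perm D) (g : D → ZMod 2) (a b : D), a ≠ b → r.SameCycle a b →
    (∀ d, r.SameCycle a d → d ≠ a → d ≠ b → g (r d) = g d) → g (r a) = g a + 1 →
    g (r b) = g b + 1 → g a = g b + 1

/-! ### Module COMB (the independent set and the forest) -/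

/-- the discs: `Ω t i` is the open side of the 4-cycle `p t i, p t (i+1), p t (i+2), w t i` -/
structure Disc {V : Type} (G : SimpleGraph V) (P : Set V) (c : V → ZMod 2) (u0 u1 u2 w : V)
    (Ω : Set V) : Prop where
  wP : w ∉ P
  cw : c w = 1
  adj0 : G.Adj u0 w
  adj2 : G.Adj u2 w
  disj : ∀ v ∈ Ω, v ∉ P
  wΩ : w ∉ Ω
  nb : ∀ u v, u ∈ Ω → G.Adj u v → v ∈ Ω ∨ v = u0 ∨ v = u1 ∨ v = u2 ∨ v = w
  out : ∀ v, v ∉ P → c v = 1 → G.Adj u0 v → G.Adj u2 v → v = w ∨ v ∈ Ω
  mid : ∀ v, v ∉ P → G.Adj u1 v → (v ∈ Ω ↔ c v = 0)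
  end0 : ∀ v ∈ Ω, G.Adj u0 v → c v = 1
  end2 : ∀ v ∈ Ω, G.Adj u2 v → c v = 1

/-- MODULE COMB. Let `c` be a proper 2-colouring of the graph outside of the vertex set `P` of the paths,
and suppose that for all `t`, `i` for which some vertex `v ∉ P` of colour `1` is a common neighbour of
`p t i` and `p t (i+2)` there is a disc. Then `G` is near-bipartite.

PROOF. Let `A t i` mean: `i + 2 ≤ L t` and such a common neighbour `v` exists; choose `w t i`, `Ω t i`
for these. Let `A' t i` mean: `A t i`, and if `i` is odd also not `A t (i-1)` and not `A t (i+1)`. Then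
(1) `A' t i` and `A' t (i+1)` never hold both (one of `i`, `i+1` is odd), (2) if `A t i` but not `A' t i`
then `i` is odd and `A' t (i-1)` or `A' t (i+1)` holds (`i ± 1` is even). Let `Ω` be the union of the
`Ω t i` with `A' t i`. Facts:
(a) `w t i ∉ Ω s j` for `A' t i`, `A' s j`: otherwise (`nb`) the neighbours `p t i`, `p t (i+2)` of
`w t i`, which are in `P` so not in `Ω s j`, are in `{p s j, p s (j+1), p s (j+2)}` (they are not
`w s j ∉ P`), so `s = t` and `i, i+2 ∈ {j, j+1, j+2}`, `i = j`, contradiction to `wΩ`.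
(b) if `u ∈ Ω`, `u ~ v`, `v ∉ Ω`, `v ∉ P` then `v = w t i` for some `A' t i`.
Put `I = {v ∉ P : v ∈ Ω, c v = 1} ∪ {v ∉ P : v ∉ Ω, c v = 0} ∪ {p t (i+1) : A' t i}`.
`I` IS INDEPENDENT. Let `u ~ v`, both in `I`. If both are outside `P`: if both are in `Ω` or both are not,
they have the same colour, contradiction to proper; if `u ∈ Ω`, `v ∉ Ω`, then `v = w t i` by (b) has
colour `1`, but `v ∈ I`, `v ∉ Ω` means colour `0`. If `v = p t (i+1)`, `A' t i`, and `u ∉ P`: if
`u ∈ Ω s j`, then by `nb` `p t (i+1) ∈ {p s j, p s (j+1), p s (j+2)}`, `s = t`, and `i + 1 = j` or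
`i + 1 = j + 2` is impossible by (1), so `i = j`, `u ∈ Ω t i`, `c u = 0` by `mid`, but `u ∈ I`, `u ∈ Ω`
means `c u = 1`; if `u ∉ Ω`, then `c u = 0`, so `u ∈ Ω t i` by `mid`, contradiction. If `u = p s (j+1)`,
`v = p t (i+1)`: by `ind` `s = t` and `|i - j| = 1`, impossible by (1).
THE COMPLEMENT IS A FOREST (definition `Forest`: every nonempty subset `S` of the complement has an
element with at most one neighbour in `S`). The complement consists of the spine vertices `p t j`
(`j ≤ L t`, not (`1 ≤ j` and `A' t (j-1)`)) and `w t i` (`A' t i`; it is not in `I` since it is not in `Ω` and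
has colour `1`), and of the vertices `v ∉ P`, not of the form `w t i`, with `v ∈ Ω`, `c v = 0` or `v ∉ Ω`,
`c v = 1` (pendant vertices). Define `σ t j = w t (j-1)` if `1 ≤ j` and `A' t (j-1)`, else `p t j`.
(c) Adjacent spine vertices are `σ t j`, `σ t (j+1)`: two `w`'s have the same colour, not adjacent; `p`'s by
`ind`; `p s j ~ w t i`: `com` with `p t i` and with `p t (i+2)` (common neighbour `w t i`) gives `s = t` and
`j ∈ {i, i+2, i-2}` and `j ∈ {i+2, i+4, i}`, so `j = i` or `j = i + 2`, and `w t i = σ t (i+1)`.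
(d) A pendant vertex `v` has at most one neighbour in the complement of `I`: it has no pendant neighbour (same
argument as for `I`: both in `Ω` or both outside: same colour; `v ∈ Ω`, `v' ∉ Ω`: `v' = w t i` by (b)).
Case `v ∉ Ω`, `c v = 1`: it has no neighbour `w t i` (same colour, both outside `P`); if it had two different
neighbours `p s i`, `p t j` in the complement, by `com` `s = t` and (say) `j = i + 2`, so `A t i`; if `A' t i`
then `v = w t i` or `v ∈ Ω t i` by `out`, contradiction; otherwise by (2) `A' t (i-1)` (then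
`p t i ∈ I`) or `A' t (i+1)` (then `p t (i+2) ∈ I`), contradiction. Case `v ∈ Ω t i`, `c v = 0`: its
neighbours outside `Ω t i` are among `p t i`, `p t (i+1)`, `p t (i+2)`, `w t i`; the first and the third are
excluded by `end0`, `end2` (colour `1`), the second is in `I`; its neighbours in `Ω t i` have colour `1`
(proper) and so are in `I`. So `w t i` is the only possible neighbour.
Now let `S` be a nonempty subset of the complement. If it contains a pendant vertex, take it. Otherwise
choose `t` and then the smallest `j` with `σ t j ∈ S`, `j ≤ L t`; by (c) its neighbours in `S` are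
`σ t (j+1)` only (`σ t (j-1)` is not in `S`). -/
def StComb : Prop :=
  ∀ (V T : Type) (G : SimpleGraph V) (L : T → ℕ) (p : T → ℕ → V) (c : V → ZMod 2), Paths G L p →
    (∀ u v, u ∉ PV L p → v ∉ PV L p → G.Adj u v → c u ≠ c v) →
    (∀ t i v, i + 2 ≤ L t → v ∉ PV L p → c v = 1 → G.Adj (p t i) v → G.Adj (p t (i + 2)) v →
      ∃ w Ω, Disc G (PV L p) c (p t i) (p t (i + 1)) (p t (i + 2)) w Ω) →
    NB G

/-! ### Module DSC (the discs exist) -/

/-- no cycle of length four separates `f s` from `f t`: functions on the darts which are constant on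
faces and change across an edge exactly if it belongs to the 4-cycle have the same value at `f s`, `f t` -/
def NoSep {V : Type} {G : SimpleGraph V} (R : Rot G) {k : ℕ} (f : Fin k → G.Dart) : Prop :=
  ∀ (v : ZMod 4 → V) (y : G.Dart → ZMod 2), Cyc G 4 v → (∀ d, y (R.φ d) = y d) →
    (∀ d : G.Dart, (∀ j, d.toProd ≠ (v j, v (j + 1)) ∧ d.toProd ≠ (v (j + 1), v j)) →
      y d.symm = y d) →
    (∀ (d : G.Dart) (j : ZMod 4), d.toProd = (v j, v (j + 1)) → y d.symm = y d + 1) →
    ∀ s t, y (f s) = y (f t)

open Classical in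
/-- MODULE DSC. The disc at a common neighbour `v0` of colour `1` of `p t i` and `p t (i+2)`.

PROOF. Write `P = PV L p`. For a dart `d` with `X d = 0`, `q d.symm = q d + 1`; if `d.fst ∉ P` then
`c d.fst = q d`; so for `d.fst ∈ P`, `d.snd ∉ P`: `c d.snd = q d.symm = q d + 1` (★).
VALUES. Let `e j` be the dart from `p t j` to `p t (j+1)`. `q (e j).symm = q (e j)` (`X = 1`), and
`q (e (i+1)) = q (e i).symm + 1 = q (e i) + 1` (hypothesis `hval`).
TR. Let `K` be the set of all `v ∉ P` with `c v = 1`, adjacent to `p t i` and `p t (i+2)`; it is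
nonempty, and by (★) the darts from `p t i`, `p t (i+2)` to `K` have `q = 0`.
Case `q (e i) = 1`: apply TR to `u0 = p t i`, `u1 = p t (i+1)`, `u2 = p t (i+2)`, with `z0` from the first
statement of RUL at `i` and `z2` from the second statement of RUL at `i + 2`; the rule at `u1` follows from the
first statement of RUL at `i + 1` (`z.snd = p t i`; for darts `d` at `u1`, `d = z` iff `d.snd = p t i`).
Case `q (e i) = 0`: apply TR to `u0 = p t (i+2)`, `u1 = p t (i+1)`, `u2 = p t i` in the same way
(`z0` from the second statement at `i + 2`, `z2` from the first statement at `i`); now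
`q (u0,u1) = q (e (i+1)) = 1` and so on.
Let `w`, `y` be given by TR, `C = {u0, u1, u2, w}` and `Ω = {v ∉ C : y d = 1 for some dart d at v}`. By
`D_REV.offv` (`StOffV`) all darts at a vertex outside of `C` have the same `y`. A dart `d` with an end outside
of `C` is not on the cycle, so `y d.symm = y d`. `wP`, `cw`, `adj0`, `adj2`, `wΩ`: clear.
`nb`: `u ∈ Ω`, `u ~ v`, `d = (u,v)`: `y d = 1`, `y d.symm = 1`, so `v ∈ C` or `v ∈ Ω`.
`out`: `v ∉ P`, `c v = 1`, `v` adjacent to `u0` and `u2`: `v ∈ K`; if `v ≠ w` then `v ∉ C`, `y (u0,v) = 1`,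
so `y (v,u0) = 1`, `v ∈ Ω`. `mid`: `v ∉ P` adjacent to `u1`: `v ≠ w` (otherwise `u0, u1, w` is a triangle), so
`v ∉ C`; `d = (u1,v)`: `v ∈ Ω` iff `y d.symm = 1` iff `y d = 1` iff `q d = 1` iff `c v = 0` by (★). `end0`:
`v ∈ Ω` adjacent to `u0`: `v ∉ C`, `d = (u0,v)`, `y d = y d.symm = 1`, so `q d = 0`, `c v = 1` by (★) and
`disj`. `end2` in the same way.
`disj`: we show that all darts at the vertices of `P` outside of `C` have `y = 0`.
(i) `y (f t) = 0` and the vertices `p t j`, `j < i`, have `y = 0`: Let `z` be the stop dart at `p t i`. If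
`i = 0` then `f t = R.r z` and `y (R.r z) = 0` by TR. If `0 < i` then `z` is the dart from `p t i` to
`p t (i-1)`, `z.snd ∈ P` so not in `K`, and not `u1`, so `y z = 0` by TR in both cases; `p t (i-1) ∉ C`
(`w ∉ P`, `Paths.inj`), so `y z.symm = 0`, so `y = 0` at `p t (i-1)`, and then at `p t (i-2)`, ..., `p t 0`
by descending induction along the darts of the path; in particular `y (f t) = 0`.
(ii) the vertices `p t j`, `j > i + 2`: the stop dart `z` at `p t (i+2)` is the dart to `p t (i+3)`,
`y z = 0`, and ascending induction.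
(iii) the vertices of the paths `s ≠ t`: `y (f s) = y (f t) = 0` by `NoSep` (the third condition on `y`
in `NoSep` follows from `on0`, `on1` of `Side`). `(f s).fst = p s 0 ∉ C`, so `y = 0` at `p s 0`; all
`p s j` are outside of `C`, ascending induction. -/
def StDsc : Prop :=
  ∀ (V : Type) [Fintype V] (G : SimpleGraph V) (R : Rot G) (k : ℕ) (f g : Fin k → G.Dart)
    (L : Fin k → ℕ) (p : Fin k → ℕ → V) (q : G.Dart → ZMod 2) (c : V → ZMod 2), TF G →
    Paths G L p → (∀ t, p t 0 = (f t).fst) → (∀ t, p t (L t) = (g t).fst) → NoSep R f →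
    (∀ d, q (R.r d) = q d + (X L p d + J R f g d)) →
    (∀ d : G.Dart, q d.symm = q d + X L p d + 1) →
    (∀ d : G.Dart, d.fst ∉ PV L p → c d.fst = q d) →
    (∀ t i, i + 2 ≤ L t → ∀ (d e : G.Dart), d.fst = p t (i + 1) → d.snd = p t i →
      e.fst = p t (i + 1) → e.snd = p t (i + 2) → q e = q d + 1) →
    ∀ t i v0, i + 2 ≤ L t → v0 ∉ PV L p → c v0 = 1 → G.Adj (p t i) v0 →
      G.Adj (p t (i + 2)) v0 →
      ∃ w Ω, Disc G (PV L p) c (p t i) (p t (i + 1)) (p t (i + 2)) w Ω

/-! ### Module EUP (Euler's formula implies planarity) -/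

/-- the face permutation of a rotation -/
def fp {V : Type} {G : SimpleGraph V} (r : Perm G.Dart) : Perm G.Dart :=
  r * SimpleGraph.Dart.symm_involutive.toPerm

/-- MODULE EUP. A rotation system of a connected graph with `V - E + F = 2` is planar.
PROOF. Adapt `Pool.Agent.Helper35.PM.M_EUL` (which is the converse). `xd`, `del G`, `finrank_ker_del` do not
use the rotation. Copy `Fc`, `Del`, `xd_Del`, `mk_r`, `const_r`, `ker_Del`, `finrank_ker_Del` with a bare
rotation `r` in place of `R : Rot G` (`R.pl` is not used there). The first half of `range_Del` gives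
`range Del ≤ ker del`. If there is at least one dart: `dim range Del = F - 1` and `dim ker del = E - V + 1`,
which are equal by hypothesis, so `range Del = ker del` (`Submodule.eq_of_le_of_finrank_eq`). If `x`, `u` are
as in `Pl` then `x` is an edge function (`x d = x d.symm`), its sum around every vertex vanishes (sum of
`u (r d) + u d` over the darts at the vertex), so `x = Del y0`, and `y d = y0 (face of d)` is as required:
`y d.symm = y d + x d` by `xd_Del`, `y (r d) = y (d.symm)` by `mk_r`. If there is no dart, `Pl` is trivial. -/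
def StEup : Prop :=
  ∀ (V : Type) [Fintype V] [DecidableEq V] (G : SimpleGraph V) [DecidableRel G.Adj]
    (r : Perm G.Dart), (∀ d, (r d).fst = d.fst) → (∀ d d', d.fst = d'.fst → r.SameCycle d d') →
    G.Connected →
    (Fintype.card V : ℤ) - (G.edgeFinset.card : ℤ) +
      (Nat.card (Quotient (SameCycle.setoid (fp r))) : ℤ) = 2 →
    Pl r SimpleGraph.Dart.symm

/-! ### The theorem -/

/-- the main theorem (assembly: helper64) -/
def StMain : Prop :=
  ∀ (V : Type) [Fintype V] (G : SimpleGraph V) (R : Rot G) (k : ℕ) (f g : Fin k → G.Dart),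
    G.Connected → TF G →
    (∀ d, Odd (Function.minimalPeriod R.φ d) ↔ ∃ t, R.φ.SameCycle (f t) d ∨ R.φ.SameCycle (g t) d) →
    (∀ s t, ¬ R.φ.SameCycle (f s) (g t)) → (∀ s t, R.φ.SameCycle (f s) (f t) → s = t) →
    (∀ s t, R.φ.SameCycle (g s) (g t) → s = t) →
    (∀ s t, s ≠ t → ∀ u v,
      G.dist (f s).fst u + G.dist u (g s).fst = G.dist (f s).fst (g s).fst →
      G.dist (f t).fst v + G.dist v (g t).fst = G.dist (f t).fst (g t).fst → 3 ≤ G.dist u v) →
    NoSep R f → NB G

end Pool.Agent.Helper64.OF
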